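import Pool.Agent.N997.Defs
import Pool.Agent.Y2.Cv.Families
import Pool.Agent.N992.Defs
import Pool.Agent.N993.ThreeP

/-!
# The reduced degree
-/

namespace Pool.Agent.N997.P

open Pool.Agent.H916R2 Pool.Agent.Y2.Cv Pool.Agent.N997 Pool.Agent.N992

/-- The bound for the primes: with `n = 2 r - 2` it is `4 n + 9` for even `m` and `2 n + 5` for odd
`m`. -/
def primeBound (r m : ℕ) : ℕ := if 2 ∣ m then 8 * r + 1 else 4 * r + 1

/-- The product, over the primes `p ≤ B`, of the least power of `p` which exceeds `bound k`. -/
def smallDegree (k B : ℕ) : ℕ :=
  ∏ p ∈ (Finset.range (B + 1)).filter Nat.Prime, p ^ (Nat.log p (bound k) + 1)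

/-- The reduced degree: the greatest common divisor of `m` and the product, over the primes
`p ≤ primeBound r m`, of the least power of `p` exceeding `bound (2 r)`. -/
def reducedDegree (r m : ℕ) : ℕ := Nat.gcd m (smallDegree (2 * r) (primeBound r m))

/-- The good degrees: those with mutual squares (for every prime factor `p` congruent to 1 modulo 4 all
other odd prime factors are squares modulo `p`, and so is 2 if 4 divides the degree) and those with at
most three odd prime factors, at most two if 4 divides the degree, such that every prime factor `p`
congruent to 1 modulo 4 is 5, 13 or 17 or all other odd prime factors are squares modulo `p`, and so is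
2 if 4 divides the degree. -/
def Good (g : ℕ) : Prop := Pool.Agent.N993.MutualSquares g ∨ Pool.Agent.N993.ThreePrimes g

end Pool.Agent.N997.P
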