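import Pool.Agent.N997.P.Remove
import Pool.Agent.N997.P.Defs
import Pool.Agent.N992.Main
import Pool.Agent.N993.ThreeP

/-!
Reduction of Hodge characters with few entries to a small degree.
-/

namespace Pool.Agent.N997.P

open Finset Pool.Agent.H916R2 Pool.Agent.N997 Pool.Agent.Y2.Cv Pool.Agent.N992

lemma dvd_smallDegree {k B n : ℕ} (hn : n ≠ 0) (h : n ∣ univDegree k)
    (hB : ∀ p, p.Prime → p ∣ n → p ≤ B) : n ∣ smallDegree k B := by
  classical
  have h1 : univDegree k =
      (∏ p ∈ ((Finset.range (bound k + 1)).filter Nat.Prime).filter (fun p => p ≤ B),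
        p ^ (Nat.log p (bound k) + 1)) *
      ∏ p ∈ ((Finset.range (bound k + 1)).filter Nat.Prime).filter (fun p => ¬ p ≤ B),
        p ^ (Nat.log p (bound k) + 1) := by
    rw [Finset.prod_filter_mul_prod_filter_not]
    rfl
  rw [h1] at h
  have hcop : Nat.Coprime n
      (∏ p ∈ ((Finset.range (bound k + 1)).filter Nat.Prime).filter (fun p => ¬ p ≤ B),
        p ^ (Nat.log p (bound k) + 1)) := by
    apply Nat.Coprime.prod_right
    intro p hp
    rw [mem_filter, mem_filter] at hp
    apply Nat.Coprime.pow_right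
    rw [Nat.coprime_comm, hp.1.2.coprime_iff_not_dvd]
    intro hpn
    exact hp.2 (hB p hp.1.2 hpn)
  refine (hcop.dvd_of_dvd_mul_right h).trans ?_
  apply prod_dvd_prod_of_subset
  intro p hp
  rw [mem_filter, mem_filter, mem_range] at hp
  rw [mem_filter, mem_range]
  exact ⟨by omega, hp.1.2⟩

/-- The reduction of Hodge characters. -/
theorem reduce_hodge2 {m : ℕ} [NeZero m] (r : ℕ) (s : Multiset (ZMod m)) (hs : IsHodge m s)
    (hcard : Multiset.card s ≤ 2 * r) (hr : 0 < r) :
    ∃ (s0 : Multiset (ZMod (reducedDegree r m))) (L L' : ℕ),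
      IsHodge (reducedDegree r m) s0 ∧ Multiset.card s0 ≤ 2 * r ∧ 0 < L ∧
      L * m = L' * reducedDegree r m ∧
      ∀ (M : ℕ) [NeZero M], L * m = M → ∀ (R : Type) [AddCommGroup R] (c : ZMod M → R), OddDist c →
        ((s.map (iota L)).map c).sum = ((s0.map (iota L')).map c).sum := by
  set g := reducedDegree r m with hg
  have hg0 : NeZero g := ⟨by rw [hg]; exact Nat.gcd_ne_zero_left (NeZero.ne m)⟩
  obtain ⟨m1, l1, hm1, x1, e1, e2, e3, e4, e5⟩ :=
    reduce_smooth (2 * r) m m (fun a : ZMod m => ((s.count a : ℕ) : ℤ)) hs.rel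
      (by rw [sum_count_abs]; exact_mod_cast hcard) le_rfl
  have heqv1 : Eqv (fun a : ZMod m => ((s.count a : ℕ) : ℤ)) x1 := by
    refine ⟨1, l1, one_pos, Nat.pos_of_ne_zero ?_, by rw [one_mul]; exact e1.symm, ?_⟩
    · rintro rfl; rw [zero_mul] at e1; exact NeZero.ne m e1.symm
    · intro M _ hM R _ c hc
      rw [one_mul] at hM
      subst hM
      rw [← e5 R c hc]
      refine sum_congr rfl fun b _ => ?_
      congr 2
      unfold iota
      rw [one_mul, ZMod.natCast_zmod_val]
  obtain ⟨m', hm', x', h1, h2, h3, h4, h5⟩ := reduce (2 * r) _ m1 x1 e3 e4 le_rfl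
  obtain ⟨L, L', hL, hL', hLL, hid⟩ := heqv1.trans h5
  obtain ⟨s', hs', hcard', hid'⟩ := exists_hodge_card x' h3 r h4
  have hm1m : m1 ∣ m := Dvd.intro_left l1 e1
  have hm'D : m' ∣ smallDegree (2 * r) (primeBound r m) := by
    apply dvd_smallDegree (NeZero.ne m') h2
    intro p hp hpm
    have h6 := e2 p hp (hpm.trans h1)
    by_cases hp2 : p = 2
    · rw [hp2]; unfold primeBound; split_ifs <;> omega
    · have hodd := hp.odd_of_ne_two hp2
      obtain ⟨t, ht⟩ := hodd
      unfold primeBound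
      unfold cN at h6
      by_cases h2m : 2 ∣ m
      · rw [if_pos h2m] at h6 ⊢; omega
      · rw [if_neg h2m] at h6 ⊢; omega
  obtain ⟨q, hq⟩ : m' ∣ g := Nat.dvd_gcd (h1.trans hm1m) hm'D
  have hq' : q * m' = g := by rw [hq, mul_comm]
  have hq0 : 0 < q := Nat.pos_of_ne_zero (by
    rintro rfl; rw [zero_mul] at hq'; exact NeZero.ne g hq'.symm)
  obtain ⟨q2, hq2⟩ : g ∣ m := Nat.gcd_dvd_left _ _
  refine ⟨s'.map (iota q), L, L * q2, hs'.iota hq', by rw [Multiset.card_map]; exact hcard', hL,
    by rw [mul_assoc, mul_comm q2 g, ← hq2], ?_⟩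
  intro M _ hM R _ c hc
  have h5 := hid M hM R c hc
  have h6 : L' * m' = M := by rw [← hLL, hM]
  rw [sum_count s (fun a => c (iota L a)), hid' R (fun b => c (iota L' b)) (hc.comp_iota h6)] at h5
  rw [Multiset.map_map, Multiset.map_map, Multiset.map_map]
  have h7 : (c ∘ (iota L : ZMod m → ZMod M)) = fun a => c (iota L a) := rfl
  rw [h7, h5]
  congr 1
  apply Multiset.map_congr rfl
  intro b _
  simp only [Function.comp_apply]
  have h8 : (L * q2) * g = M := by rw [mul_assoc, mul_comm q2 g, ← hq2, hM]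
  rw [iota_comp h8]
  congr 2
  have h9 : L' * m' = (L * q2 * q) * m' := by rw [h6, ← h8, ← hq']; ring
  exact Nat.eq_of_mul_eq_mul_right (NeZero.pos m') h9

/-- passage from distributions to generation -/
lemma gen_of_kill {M m g q q' : ℕ} [NeZero M] [NeZero m] [NeZero g]
    {base : Multiset (ZMod M) → Prop}
    (hb : ∀ s, base s → (0 : ZMod M) ∉ s ∧ Even (Multiset.card s))
    (hbn : ∀ s, base s → base (s.map Neg.neg)) (hq : q * m = M)
    {s : Multiset (ZMod m)} (hs : IsHodge m s) (hne : s ≠ 0) (s0 : Multiset (ZMod g))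
    (hid : ∀ (R : Type) [AddCommGroup R] (c : ZMod M → R), OddDist c →
      ((s.map (iota q)).map c).sum = ((s0.map (iota q')).map c).sum)
    (hkill : ∀ (R : Type) [AddCommGroup R] (c : ZMod M → R), OddDist c →
      (∀ u, base u → (u.map c).sum = 0) → ((s0.map (iota q')).map c).sum = 0) :
    Generated M base (s.map (iota q)) := by
  have hl : IsHodge M (s.map (iota q)) := hs.iota hq
  apply generated_of_mem_LL hb hbn hl.1 hl.2.1
  · intro h; exact hne (Multiset.map_eq_zero.mp h)
  · have h1 := hid _ (cQ M base) cQ_oddDist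
    rw [hkill _ (cQ M base) cQ_oddDist (fun u hu => cQ_sum_eq_zero (Generated.ofBase u hu)), cQ_sum,
      QuotientAddGroup.eq_zero_iff] at h1
    exact h1

/-- the base of the final theorem -/
def FB (M g r : ℕ) [NeZero M] (u : Multiset (ZMod M)) : Prop :=
  SurfaceOrCurveProduct M u ∨ ModularCharacter M u ∨ (¬ Good g ∧ FromFermat M g r u)

lemma FB_good {M g r : ℕ} [NeZero M] [NeZero g] (h : g ∣ M) :
    ∀ u, FB M g r u → (0 : ZMod M) ∉ u ∧ Even (Multiset.card u) := by
  rintro u (hu | hu | ⟨_, hu⟩)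
  · exact base_good u hu
  · exact ⟨hu.1.1, hu.1.2.1⟩
  · exact ⟨(fromFermat_good h u hu).1, (fromFermat_good h u hu).2.1⟩

lemma FB_neg {M g r : ℕ} [NeZero M] [NeZero g] (h : g ∣ M) :
    ∀ u, FB M g r u → FB M g r (u.map Neg.neg) := by
  rintro u (hu | hu | ⟨hg, hu⟩)
  · exact Or.inl (base_neg u hu)
  · exact Or.inr (Or.inl hu.neg)
  · exact Or.inr (Or.inr ⟨hg, fromFermat_neg h u hu⟩)

theorem main {m : ℕ} (hm : 0 < m) (r : ℕ) (s : Multiset (ZMod m)) (hs : IsHodge m s)
    (hne : s ≠ 0) (hcard : Multiset.card s ≤ 2 * r) :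
    ∃ (l : ℕ) (hl : NeZero (l * m)), Generated (l * m) (FB (l * m) (reducedDegree r m) r)
      (s.map fun a => ((l * a.val : ℕ) : ZMod (l * m))) := by
  have hm0 : NeZero m := ⟨hm.ne'⟩
  have hr : 0 < r := by
    rcases Nat.eq_zero_or_pos r with rfl | h
    · exfalso
      apply hne
      rw [← Multiset.card_eq_zero]; omega
    · exact h
  set g := reducedDegree r m with hg
  have hg0 : NeZero g := ⟨by rw [hg]; exact Nat.gcd_ne_zero_left (NeZero.ne m)⟩
  obtain ⟨s0, L, L', h0, hc0, hL, hLL, hid⟩ := reduce_hodge2 r s hs hcard hr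
  have hgm : g ∣ m := Nat.gcd_dvd_left _ _
  by_cases hG : Good g
  · -- level `l1 L m`
    obtain ⟨l1, hl1, -, hgen⟩ := Pool.Agent.N993.mainT g (hG.imp_right Or.inl)
    have hl10 : 0 < l1 := Nat.pos_of_ne_zero (by
      rintro rfl; exact hl1.out (Nat.zero_mul g))
    have hM0 : NeZero (l1 * L * m) :=
      ⟨Nat.mul_ne_zero (Nat.mul_ne_zero hl10.ne' hL.ne') hm.ne'⟩
    have hLm0 : NeZero (L * m) := ⟨Nat.mul_ne_zero hL.ne' hm.ne'⟩
    refine ⟨l1 * L, hM0, ?_⟩
    have hgM : g ∣ l1 * L * m := hgm.mul_left _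
    have h2L : l1 * (L * m) = l1 * L * m := by ring
    have hq : l1 * L' * g = l1 * L * m := by rw [mul_assoc, ← hLL]; ring
    refine gen_of_kill (g := g) (q' := l1 * L') (FB_good hgM) (FB_neg hgM) rfl hs hne s0 ?_ ?_
    · intro R _ c hc
      have h1 := hid (L * m) rfl R (fun b => c (iota l1 b)) (hc.comp_iota h2L)
      rw [Multiset.map_map, Multiset.map_map] at h1 ⊢
      have e1 : (c ∘ (iota (l1 * L) : ZMod m → ZMod (l1 * L * m))) =
          ((fun b => c (iota l1 b)) ∘ (iota L : ZMod m → ZMod (L * m))) := by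
        funext b
        simp only [Function.comp_apply]
        rw [iota_comp h2L]
      have e2 : (c ∘ (iota (l1 * L') : ZMod g → ZMod (l1 * L * m))) =
          ((fun b => c (iota l1 b)) ∘ (iota L' : ZMod g → ZMod (L * m))) := by
        funext b
        simp only [Function.comp_apply]
        rw [iota_comp h2L]
      rw [e1, e2]
      exact h1
    · intro R _ c hcO hkb
      rcases eq_or_ne s0 0 with h3 | h3
      · rw [h3]; simp
      have hq2 : L' * (l1 * g) = l1 * L * m := by rw [← hq]; ring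
      have h5 := kil_generated (hcO.comp_iota hq2) (fun t ht => by
        have h1 : FB (l1 * L * m) g r (t.map (iota L' : ZMod (l1 * g) → ZMod (l1 * L * m))) := by
          rcases ht with (⟨h1, h2⟩ | h1) | h1
          · exact Or.inl (Or.inl ⟨h1.iota hq2, by rw [Multiset.card_map]; exact h2⟩)
          · exact Or.inl (Or.inr (h1.lift hq2))
          · exact Or.inr (Or.inl (ModularCharacter.lift hq2 h1))
        have h2 := hkb _ h1
        rw [Multiset.map_map] at h2
        exact h2) (hgen s0 h0 h3)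
      rw [Multiset.map_map] at h5
      rw [Multiset.map_map, ← h5]
      congr 1
      apply Multiset.map_congr rfl
      intro b _
      simp only [Function.comp_apply]
      have h6 : ((l1 * b.val : ℕ) : ZMod (l1 * g)) = iota l1 b := rfl
      rw [h6, iota_comp hq2, mul_comm L' l1]
  · have hM0 : NeZero (L * m) := ⟨Nat.mul_ne_zero hL.ne' hm.ne'⟩
    refine ⟨L, hM0, ?_⟩
    have hgM : g ∣ L * m := hgm.mul_left _
    have hq : L' * g = L * m := hLL.symm
    refine gen_of_kill (g := g) (q' := L') (FB_good hgM) (FB_neg hgM) rfl hs hne s0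
      (fun R _ c hc => hid (L * m) rfl R c hc) ?_
    intro R _ c hcO hkb
    rcases Multiset.empty_or_exists_mem s0 with h3 | ⟨b, hb⟩
    · rw [h3]; simp
    · have hb0 : b ≠ 0 := fun h => h0.1 (h ▸ hb)
      obtain ⟨k, hk⟩ := h0.2.1
      set n := r - k with hn
      have hL'g : L * m / g = L' := by
        rw [hLL]; exact Nat.mul_div_cancel _ (NeZero.pos g)
      have h5 := hkb
        ((s0 + Multiset.replicate n b + Multiset.replicate n (-b)).map (iota L'))
        (Or.inr (Or.inr ⟨hG, _, IsHodge.add_pairs h0 hb0 n, by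
          rw [Multiset.card_add, Multiset.card_add, Multiset.card_replicate,
            Multiset.card_replicate]
          omega, by rw [hL'g]; rfl⟩))
      rw [Multiset.map_add, Multiset.map_add, Multiset.map_add, Multiset.map_add,
        Multiset.sum_add, Multiset.sum_add, Multiset.map_replicate, Multiset.map_replicate,
        Multiset.map_replicate, Multiset.map_replicate, Multiset.sum_replicate,
        Multiset.sum_replicate, iota_neg hLL.symm, hcO.neg, neg_nsmul,
        add_neg_cancel_right] at h5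
      exact h5

end Pool.Agent.N997.P
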