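import Mathlib

/-!
Functions on a finite abelian group whose sums over the cosets of some independent subgroups vanish:
torsion-freeness of the dual and a lower bound.
-/

namespace Pool.Agent.N997.P

open Finset Classical

variable {U : Type*} [CommGroup U] [Fintype U]

/-- the sums over the cosets of the subgroups of the list vanish -/
def SZ {R : Type*} [AddCommGroup R] (L : List (Subgroup U)) (c : U → R) : Prop :=
  ∀ K ∈ L, ∀ u, ∑ k ∈ univ.filter (fun k => k ∈ K), c (k * u) = 0

/-- the subgroup generated by the list -/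
def supL (L : List (Subgroup U)) : Subgroup U := L.foldr (· ⊔ ·) ⊥

omit [Fintype U] in
lemma le_supL {L : List (Subgroup U)} {K : Subgroup U} (h : K ∈ L) : K ≤ supL L := by
  induction L with
  | nil => simp at h
  | cons K' L ih =>
    have e : supL (K' :: L) = K' ⊔ supL L := rfl
    rw [e]
    rcases List.mem_cons.mp h with rfl | h
    · exact le_sup_left
    · exact (ih h).trans le_sup_right

/-- independence, relative to a subgroup -/
def Ind (H : Subgroup U) : List (Subgroup U) → Prop
  | [] => True
  | K :: L => K ⊓ (H ⊔ supL L) = ⊥ ∧ Ind H L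

omit [Fintype U] in
lemma exists_theta (K A : Subgroup U) (h : K ⊓ A = ⊥) :
    ∃ Y : U → Prop, (∀ a ∈ A, ∀ u, Y (a * u) ↔ Y u) ∧ ∀ u, ∃! k, k ∈ K ∧ Y (k * u) := by
  let q : U → U := fun u => Quotient.out (QuotientGroup.mk u : U ⧸ (K ⊔ A))
  have hq : ∀ b ∈ K ⊔ A, ∀ u, q (b * u) = q u := by
    intro b hb u
    have : (QuotientGroup.mk (b * u) : U ⧸ (K ⊔ A)) = QuotientGroup.mk u := by
      rw [QuotientGroup.eq]
      have : (b * u)⁻¹ * u = b⁻¹ := by
        rw [mul_inv_rev, mul_assoc, mul_comm b⁻¹ u, ← mul_assoc, inv_mul_cancel, one_mul]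
      rw [this]
      exact (K ⊔ A).inv_mem hb
    simp only [q, this]
  have hq2 : ∀ u, (q u)⁻¹ * u ∈ K ⊔ A := by
    intro u
    have h1 : (QuotientGroup.mk (q u) : U ⧸ (K ⊔ A)) = QuotientGroup.mk u :=
      Quotient.out_eq (QuotientGroup.mk u : U ⧸ (K ⊔ A))
    exact QuotientGroup.eq.mp h1
  refine ⟨fun u => (q u)⁻¹ * u ∈ A, ?_, ?_⟩
  · intro a ha u
    have ha' : a ∈ K ⊔ A := (le_sup_right : A ≤ K ⊔ A) ha
    simp only [hq a ha' u]
    have e : (q u)⁻¹ * (a * u) = a * ((q u)⁻¹ * u) := by
      rw [← mul_assoc, mul_comm (q u)⁻¹ a, mul_assoc]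
    rw [e]
    constructor
    · intro h1
      have := A.mul_mem (A.inv_mem ha) h1
      rwa [inv_mul_cancel_left] at this
    · intro h1
      exact A.mul_mem ha h1
  · intro u
    obtain ⟨k0, hk0, a0, ha0, hka⟩ := Subgroup.mem_sup.mp (hq2 u)
    refine ⟨k0⁻¹, ⟨K.inv_mem hk0, ?_⟩, ?_⟩
    · change (q (k0⁻¹ * u))⁻¹ * (k0⁻¹ * u) ∈ A
      rw [hq _ ((le_sup_left : K ≤ K ⊔ A) (K.inv_mem hk0))]
      have e : (q u)⁻¹ * (k0⁻¹ * u) = a0 := by
        rw [← mul_assoc, mul_comm (q u)⁻¹ k0⁻¹, mul_assoc, ← hka, inv_mul_cancel_left]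
      rw [e]; exact ha0
    · rintro k ⟨hk, hY⟩
      change (q (k * u))⁻¹ * (k * u) ∈ A at hY
      rw [hq _ ((le_sup_left : K ≤ K ⊔ A) hk)] at hY
      have e : (q u)⁻¹ * (k * u) = (k * k0) * a0 := by
        rw [← mul_assoc, mul_comm (q u)⁻¹ k, mul_assoc, ← hka, mul_assoc]
      rw [e] at hY
      have h1 : k * k0 ∈ A := by
        have := A.mul_mem hY (A.inv_mem ha0)
        rwa [mul_inv_cancel_right] at this
      have h2 : k * k0 ∈ K ⊓ A := ⟨K.mul_mem hk hk0, h1⟩
      rw [h, Subgroup.mem_bot] at h2
      exact eq_inv_of_mul_eq_one_left h2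

/-- reindexing a sum over a subgroup -/
lemma sum_shift {R : Type*} [AddCommMonoid R] (K : Subgroup U) {k : U} (hk : k ∈ K) (F : U → R) :
    ∑ x ∈ univ.filter (fun x => x ∈ K), F (k * x) = ∑ x ∈ univ.filter (fun x => x ∈ K), F x := by
  apply Finset.sum_nbij' (fun x => k * x) (fun x => k⁻¹ * x)
  · intro x hx
    simp only [mem_filter, mem_univ, true_and] at hx ⊢
    exact K.mul_mem hk hx
  · intro x hx
    simp only [mem_filter, mem_univ, true_and] at hx ⊢
    exact K.mul_mem (K.inv_mem hk) hx
  · intro x _; simp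
  · intro x _; simp
  · intro x _; rfl

lemma sum_inv {R : Type*} [AddCommMonoid R] (K : Subgroup U) (F : U → R) :
    ∑ x ∈ univ.filter (fun x => x ∈ K), F x⁻¹ = ∑ x ∈ univ.filter (fun x => x ∈ K), F x := by
  apply Finset.sum_nbij' (fun x => x⁻¹) (fun x => x⁻¹)
  · intro x hx
    simp only [mem_filter, mem_univ, true_and] at hx ⊢
    exact K.inv_mem hx
  · intro x hx
    simp only [mem_filter, mem_univ, true_and] at hx ⊢
    exact K.inv_mem hx
  · intro x _; simp
  · intro x _; simp
  · intro x _; rfl

lemma sum_unique {R : Type*} [AddCommMonoid R] (K : Subgroup U) (Y : U → Prop) (u : U)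
    (h : ∃! k, k ∈ K ∧ Y (k * u)) (r : R) :
    ∑ k ∈ univ.filter (fun k => k ∈ K), (if Y (k * u) then r else 0) = r := by
  obtain ⟨k, ⟨hk, hY⟩, huniq⟩ := h
  rw [Finset.sum_eq_single k]
  · rw [if_pos hY]
  · intro b hb hne
    rw [if_neg]
    intro hYb
    exact hne (huniq b ⟨(mem_filter.mp hb).2, hYb⟩)
  · intro h
    exact absurd (mem_filter.mpr ⟨mem_univ _, hk⟩) h

lemma SZ.shift {R : Type*} [AddCommGroup R] {L : List (Subgroup U)} {c : U → R} (hc : SZ L c)
    (k : U) : SZ L (fun u => c (k * u)) := by
  intro K hK u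
  have := hc K hK (k * u)
  rw [← this]
  refine sum_congr rfl fun x _ => ?_
  change c (k * (x * u)) = c (x * (k * u))
  rw [mul_left_comm]

lemma SZ.sub {R : Type*} [AddCommGroup R] {L : List (Subgroup U)} {c c' : U → R} (hc : SZ L c)
    (hc' : SZ L c') : SZ L (fun u => c u - c' u) := by
  intro K hK u
  rw [sum_sub_distrib, hc K hK u, hc' K hK u, sub_zero]

lemma SZ.restrict {R : Type*} [AddCommGroup R] {L : List (Subgroup U)} {c : U → R} (hc : SZ L c)
    {Y : U → Prop} (hY : ∀ a ∈ supL L, ∀ u, Y (a * u) ↔ Y u) :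
    SZ L (fun u => if Y u then c u else 0) := by
  intro K hK u
  have h1 : ∀ k ∈ univ.filter (fun k => k ∈ K), (if Y (k * u) then c (k * u) else 0) =
      (if Y u then c (k * u) else 0) := by
    intro k hk
    simp only [hY k (le_supL hK (mem_filter.mp hk).2) u]
  rw [sum_congr rfl h1]
  by_cases h : Y u
  · simp only [if_pos h]; exact hc K hK u
  · simp only [if_neg h]; simp

/-- Torsion-freeness. -/
theorem tf_grp : ∀ (L : List (Subgroup U)), Ind ⊥ L → ∀ g : U → ℤ,
    (∀ c : U → ℝ, SZ L c → ∑ u, g u • c u = 0) →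
    ∀ (R : Type) [AddCommGroup R] (c : U → R), SZ L c → ∑ u, g u • c u = 0 := by
  intro L
  induction L with
  | nil =>
    intro _ g hg R _ c _
    have hg0 : ∀ u, g u = 0 := by
      intro u
      have := hg (fun v => if v = u then 1 else 0) (by intro K hK; simp at hK)
      simpa using this
    apply sum_eq_zero
    intro u _
    rw [hg0 u, zero_smul]
  | cons K L ih =>
    intro hI g hg R _ c hc
    obtain ⟨hK, hL⟩ := hI
    rw [bot_sup_eq] at hK
    obtain ⟨Y, hYA, hY⟩ := exists_theta K (supL L) hK
    -- invariance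
    have hinv : ∀ k ∈ K, ∀ (c : U → R), SZ L c → ∑ u, g u • c (k * u) = ∑ u, g u • c u := by
      intro k hk c hc
      have key : ∀ (R' : Type) [AddCommGroup R'] (c : U → R'),
          ∑ u, (g u - g (k⁻¹ * u)) • c u = ∑ u, g u • (c u - c (k * u)) := by
        intro R' _ c
        simp only [sub_smul, smul_sub, sum_sub_distrib]
        congr 1
        rw [← Equiv.sum_comp (Equiv.mulLeft k)]
        refine sum_congr rfl fun u _ => ?_
        simp
      have h1 : ∀ c : U → ℝ, SZ L c → ∑ u, (g u - g (k⁻¹ * u)) • c u = 0 := by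
        intro c hc
        rw [key]
        apply hg (fun u => c u - c (k * u))
        intro K' hK' u
        rcases List.mem_cons.mp hK' with rfl | hK'
        · rw [sum_sub_distrib]
          have := sum_shift K' hk (fun x => c (x * u))
          rw [← this, sub_eq_zero]
          refine sum_congr rfl fun x _ => ?_
          rw [mul_assoc]
        · exact (hc.sub (hc.shift k)) K' hK' u
      have h2 := ih hL _ h1 R c hc
      rw [key] at h2
      simp only [smul_sub, sum_sub_distrib] at h2
      exact (sub_eq_zero.mp h2).symm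
    -- pieces
    have hcL : SZ L c := fun K' hK' => hc K' (List.mem_cons_of_mem _ hK')
    have h1 : ∀ u, c u = ∑ k ∈ univ.filter (fun k => k ∈ K),
        (fun v => if Y v then c (k⁻¹ * v) else 0) (k * u) := by
      intro u
      have h2 := sum_unique K Y u (hY u) (c u)
      conv_lhs => rw [← h2]
      refine sum_congr rfl fun k _ => ?_
      simp
    calc ∑ u, g u • c u = ∑ k ∈ univ.filter (fun k => k ∈ K), ∑ u, g u •
          (fun v => if Y v then c (k⁻¹ * v) else 0) (k * u) := by
          rw [sum_comm]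
          refine sum_congr rfl fun u _ => ?_
          rw [← smul_sum, ← h1 u]
      _ = ∑ k ∈ univ.filter (fun k => k ∈ K), ∑ u, g u •
          (if Y u then c (k⁻¹ * u) else 0) := by
          refine sum_congr rfl fun k hk => ?_
          exact hinv k (mem_filter.mp hk).2 (fun v => if Y v then c (k⁻¹ * v) else 0)
            ((hcL.shift k⁻¹).restrict hYA)
      _ = ∑ u, g u • ∑ k ∈ univ.filter (fun k => k ∈ K), (if Y u then c (k⁻¹ * u) else 0) := by
          rw [sum_comm]
          refine sum_congr rfl fun u _ => ?_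
          rw [← smul_sum]
      _ = 0 := by
          apply sum_eq_zero
          intro u _
          by_cases h : Y u
          · simp only [if_pos h]
            rw [sum_inv K (fun k => c (k * u)), hc K (List.mem_cons_self ..) u, smul_zero]
          · simp only [if_neg h]; simp

/-- The lower bound. -/
theorem bd_grp (H : Subgroup U) : ∀ (L : List (Subgroup U)), Ind H L → ∀ (g : U → ℤ) (M : ℝ),
    M < Nat.card H →
    (∀ c : U → ℝ, SZ L c → ∀ B : ℝ, (∀ u, |c u| ≤ B) → |∑ u, g u • c u| ≤ M * B) →
    (∀ c : U → ℝ, SZ L c → ∀ h ∈ H, ∑ u, g u • c (h * u) = ∑ u, g u • c u) →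
    ∀ c : U → ℝ, SZ L c → ∑ u, g u • c u = 0 := by
  intro L
  induction L with
  | nil =>
    intro _ g M hM hb hinv c _
    have hnil : ∀ c : U → ℝ, SZ [] c := by intro c K hK; simp at hK
    have hg : ∀ h ∈ H, ∀ u, g (h * u) = g u := by
      intro h hh u
      have := hinv (fun v => if v = u then 1 else 0) (hnil _) h⁻¹ (H.inv_mem hh)
      have e1 : ∀ v, (h⁻¹ * v = u) ↔ (v = h * u) := by
        intro v
        constructor
        · intro e; rw [← e, mul_inv_cancel_left]
        · intro e; rw [e, inv_mul_cancel_left]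
      simp only [e1] at this
      simpa using this
    have hg0 : ∀ u, g u = 0 := by
      intro u0
      set c0 : U → ℝ := fun v => if v * u0⁻¹ ∈ H then 1 else 0 with hc0
      have h1 := hb c0 (hnil _) 1 (by
        intro u; simp only [hc0]; split_ifs <;> simp)
      have h2 : ∑ u, g u • c0 u = (Nat.card H : ℝ) * g u0 := by
        rw [← Equiv.sum_comp (Equiv.mulRight u0)]
        have h3 : ∀ v : U, g ((Equiv.mulRight u0) v) • c0 ((Equiv.mulRight u0) v) =
            if v ∈ H then (g u0 : ℝ) else 0 := by
          intro v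
          simp only [Equiv.coe_mulRight, hc0, mul_inv_cancel_right]
          by_cases hv : v ∈ H
          · rw [if_pos hv, if_pos hv, hg v hv]; simp
          · rw [if_neg hv, if_neg hv]; simp
        rw [sum_congr rfl fun v _ => h3 v, ← Finset.sum_filter, Finset.sum_const, nsmul_eq_mul]
        congr 2
        rw [Nat.card_eq_fintype_card, Fintype.card_subtype]
      rw [h2, mul_one, abs_mul, Nat.abs_cast] at h1
      by_contra hne
      have h4 : (1 : ℝ) ≤ |(g u0 : ℝ)| := by
        have : (1 : ℤ) ≤ |g u0| := Int.one_le_abs hne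
        exact_mod_cast this
      have h5 : (0 : ℝ) ≤ (Nat.card H : ℝ) := Nat.cast_nonneg _
      nlinarith
    apply sum_eq_zero
    intro u _
    rw [hg0 u, zero_smul]
  | cons K L ih =>
    intro hI g M hM hb hinv c hc
    obtain ⟨hK, hL⟩ := hI
    obtain ⟨Y, hYA, hY⟩ := exists_theta K (H ⊔ supL L) hK
    have hYH : ∀ a ∈ H, ∀ u, Y (a * u) ↔ Y u := fun a ha => hYA a (le_sup_left (b := supL L) ha)
    have hYL : ∀ a ∈ supL L, ∀ u, Y (a * u) ↔ Y u := fun a ha => hYA a (le_sup_right (a := H) ha)
    -- the differences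
    let dk : U → (U → ℝ) → (U → ℝ) := fun k c u =>
      (if Y u then c u else 0) - (if Y (k⁻¹ * u) then c (k⁻¹ * u) else 0)
    have hdk : ∀ k ∈ K, ∀ c, SZ L c → SZ (K :: L) (dk k c) := by
      intro k hk c hc K' hK' u
      rcases List.mem_cons.mp hK' with rfl | hK'
      · simp only [dk]
        rw [sum_sub_distrib]
        have := sum_shift K' (K'.inv_mem hk) (fun x => if Y (x * u) then c (x * u) else 0)
        rw [← this, sub_eq_zero]
        refine sum_congr rfl fun x _ => ?_
        rw [mul_assoc]
      · have h1 := hc.restrict hYL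
        exact (h1.sub (h1.shift k⁻¹)) K' hK' u
    have hgk : ∀ (k : U) (c : U → ℝ), ∑ u, (if Y u then g u - g (k * u) else 0) • c u =
        ∑ u, g u • dk k c u := by
      intro k c
      simp only [dk, smul_sub, sum_sub_distrib]
      have h1 : ∑ u, g u • (if Y (k⁻¹ * u) then c (k⁻¹ * u) else 0) =
          ∑ u, g (k * u) • (if Y u then c u else 0) := by
        rw [← Equiv.sum_comp (Equiv.mulLeft k)]
        refine sum_congr rfl fun u _ => ?_
        simp
      rw [h1, ← sum_sub_distrib]
      refine sum_congr rfl fun u _ => ?_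
      by_cases h : Y u
      · simp only [if_pos h, sub_smul]
      · simp only [if_neg h, smul_zero, zero_smul, sub_zero]
    have hkill : ∀ k ∈ K, ∀ c : U → ℝ, SZ L c → ∑ u, g u • dk k c u = 0 := by
      intro k hk c hc
      rw [← hgk]
      refine ih hL (fun u => if Y u then g u - g (k * u) else 0) M hM ?_ ?_ c hc
      · intro c hc B hB
        rw [hgk]
        by_cases hk1 : k = 1
        · have h0 : ∑ u, g u • dk k c u = 0 := by
            apply sum_eq_zero
            intro u _
            simp only [dk, hk1, inv_one, one_mul, sub_self, smul_zero]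
          rw [h0, abs_zero]
          have hB0 : 0 ≤ B := (abs_nonneg _).trans (hB 1)
          have h3 := hb (fun _ => 0) (by intro K' _ u; simp) B (by intro u; simpa using hB0)
          simpa using h3
        · apply hb _ (hdk k hk c hc)
          intro u
          simp only [dk]
          by_cases h1 : Y u
          · have h2 : ¬ Y (k⁻¹ * u) := by
              intro h2
              obtain ⟨k1, _, huniq⟩ := hY u
              have e1 := huniq 1 ⟨K.one_mem, by rwa [one_mul]⟩
              have e2 := huniq k⁻¹ ⟨K.inv_mem hk, h2⟩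
              exact hk1 (inv_eq_one.mp (e2.trans e1.symm))
            rw [if_pos h1, if_neg h2, sub_zero]
            exact hB u
          · rw [if_neg h1, zero_sub, abs_neg]
            split_ifs
            · exact hB _
            · rw [abs_zero]; exact (abs_nonneg _).trans (hB 1)
      · intro c hc h hh
        have e := hgk k (fun u => c (h * u))
        have e2 : ∀ u, dk k (fun u => c (h * u)) u = dk k c (h * u) := by
          intro u
          simp only [dk]
          rw [mul_left_comm k⁻¹ h u]
          simp only [hYH h hh]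
        rw [e, sum_congr rfl fun u _ => by rw [e2 u], hinv _ (hdk k hk c hc) h hh, hgk]
    -- conclusion
    have hcL : SZ L c := fun K' hK' => hc K' (List.mem_cons_of_mem _ hK')
    have h1 : ∀ u, ∑ k ∈ univ.filter (fun k => k ∈ K), dk k (fun v => c (k * v)) u = - c u := by
      intro u
      simp only [dk]
      rw [sum_sub_distrib]
      have e1 : ∑ k ∈ univ.filter (fun k => k ∈ K), (if Y u then c (k * u) else 0) = 0 := by
        by_cases h : Y u
        · simp only [if_pos h]; exact hc K (List.mem_cons_self ..) u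
        · simp only [if_neg h]; simp
      rw [e1, zero_sub]
      congr 1
      have e2 := sum_inv K (fun k => if Y (k * u) then c u else 0)
      have e3 := sum_unique K Y u (hY u) (c u)
      rw [← e3, ← e2]
      refine sum_congr rfl fun k _ => ?_
      simp
    have h2 : ∑ u, g u • c u = - ∑ k ∈ univ.filter (fun k => k ∈ K),
        ∑ u, g u • dk k (fun v => c (k * v)) u := by
      rw [sum_comm, ← sum_neg_distrib]
      refine sum_congr rfl fun u _ => ?_
      rw [← smul_sum, h1 u, smul_neg, neg_neg]
    rw [h2, neg_eq_zero]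
    apply sum_eq_zero
    intro k hk
    exact hkill k (mem_filter.mp hk).2 _ (hcL.shift k)

end Pool.Agent.N997.P
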