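import Pool.Agent.N997.P.Lvl
import Pool.Agent.N997.P.Grp

/-!
The base case: all primes of the level are new.
-/

namespace Pool.Agent.N997.P

open Finset Pool.Agent.H916R2

variable {m : ℕ} [NeZero m]

/-- the units congruent to one modulo `m / n` -/
def Kn (m n : ℕ) : Subgroup (ZMod m)ˣ where
  carrier := {u | (n : ZMod m) * (u : ZMod m) = n}
  mul_mem' := by
    intro u v hu hv
    simp only [Set.mem_ofPred_eq, Units.val_mul] at hu hv ⊢
    rw [← mul_assoc, hu, hv]
  one_mem' := by simp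
  inv_mem' := by
    intro u hu
    simp only [Set.mem_ofPred_eq] at hu ⊢
    calc (n : ZMod m) * ((u⁻¹ : (ZMod m)ˣ) : ZMod m) =
        ((n : ZMod m) * u) * ((u⁻¹ : (ZMod m)ˣ) : ZMod m) := by rw [hu]
      _ = n := by rw [mul_assoc]; simp

lemma mem_Kn {n : ℕ} {u : (ZMod m)ˣ} : u ∈ Kn m n ↔ (n : ZMod m) * (u : ZMod m) = n := Iff.rfl

lemma Kn_mono {n n' : ℕ} (h : n ∣ n') : Kn m n ≤ Kn m n' := by
  obtain ⟨k, rfl⟩ := h
  intro u hu
  rw [mem_Kn] at hu ⊢
  push_cast
  rw [mul_comm (n : ZMod m) k, mul_assoc, hu]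

lemma Kn_disj {n n' : ℕ} (h : Nat.Coprime n n') : Kn m n ⊓ Kn m n' = ⊥ := by
  rw [eq_bot_iff]
  intro u hu
  obtain ⟨h1, h2⟩ := hu
  rw [Subgroup.mem_bot]
  apply Units.ext
  apply eq_of_coprime (m := m) h
  · rw [mem_Kn.mp h1]; simp
  · rw [mem_Kn.mp h2]; simp

lemma ind_list (H : Subgroup (ZMod m)ˣ) : ∀ (qs : List ℕ), qs.Nodup →
    (∀ q ∈ qs, q.Prime ∧ q ∣ m ∧ H ≤ Kn m (m / q ^ m.factorization q)) →
    Ind H (qs.map (Kn m)) := by
  intro qs
  induction qs with
  | nil => intro _ _; trivial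
  | cons q qs ih =>
    intro hnd hq
    obtain ⟨hqpr, hqm, hH⟩ := hq q (List.mem_cons_self ..)
    rw [List.nodup_cons] at hnd
    refine ⟨?_, ih hnd.2 fun r hr => hq r (List.mem_cons_of_mem _ hr)⟩
    rw [eq_bot_iff]
    have hcop : Nat.Coprime q (m / q ^ m.factorization q) :=
      Nat.coprime_ordCompl hqpr (NeZero.ne m)
    rw [← Kn_disj (m := m) hcop]
    apply inf_le_inf_left
    apply sup_le hH
    have : ∀ rs : List ℕ, (∀ r ∈ rs, r ∈ qs) → supL (rs.map (Kn m)) ≤
        Kn m (m / q ^ m.factorization q) := by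
      intro rs
      induction rs with
      | nil => intro _; exact bot_le
      | cons r rs ih2 =>
        intro hrs
        apply sup_le _ (ih2 fun x hx => hrs x (List.mem_cons_of_mem _ hx))
        apply Kn_mono
        have hr := hrs r (List.mem_cons_self ..)
        obtain ⟨hrpr, hrm, _⟩ := hq r (List.mem_cons_of_mem _ hr)
        have hne : r ≠ q := fun e => hnd.1 (e ▸ hr)
        have h1 : r ∣ q ^ m.factorization q * (m / q ^ m.factorization q) := by
          rw [Nat.ordProj_mul_ordCompl_eq_self]; exact hrm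
        exact (Nat.Coprime.pow_right _ ((Nat.coprime_primes hrpr hqpr).mpr hne)).dvd_of_dvd_mul_left h1
    exact this qs fun _ h => h

section

open Classical

/-- extension by zero from the units -/
noncomputable def ez {R : Type*} [AddCommGroup R] (c : (ZMod m)ˣ → R) (a : ZMod m) : R :=
  if h : IsUnit a then c h.unit else 0

lemma ez_unit {R : Type*} [AddCommGroup R] (c : (ZMod m)ˣ → R) (u : (ZMod m)ˣ) :
    ez c (u : ZMod m) = c u := by
  unfold ez
  rw [dif_pos u.isUnit]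
  congr 1
  exact Units.ext rfl

lemma ez_of_not {R : Type*} [AddCommGroup R] {c : (ZMod m)ˣ → R} {a : ZMod m} (h : ¬ IsUnit a) :
    ez c a = 0 := dif_neg h

lemma not_unit_of_dvd {q : ℕ} (hq : q.Prime) (hqm : q ∣ m) {a : ZMod m} (ha : q ∣ a.val) :
    ¬ IsUnit a := by
  intro h
  rw [dvd_val_iff hqm] at ha
  have h1 := h.map (ZMod.castHom hqm (ZMod q))
  rw [ha] at h1
  have : Fact q.Prime := ⟨hq⟩
  exact not_isUnit_zero h1

lemma exists_dvd_of_not_unit {a : ZMod m} (h : ¬ IsUnit a) : ∃ q, q.Prime ∧ q ∣ m ∧ q ∣ a.val := by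
  by_contra hcon
  push Not at hcon
  apply h
  rw [← ZMod.natCast_zmod_val a, ZMod.isUnit_iff_coprime]
  apply Nat.coprime_of_dvd
  intro q hq h1 h2
  exact hcon q hq h2 h1

/-- sums over cosets of a function supported on units -/
lemma sum_cos_unit {R : Type*} [AddCommGroup R] {q : ℕ} {c : ZMod m → R}
    (hc : ∀ a, ¬ IsUnit a → c a = 0) (u : (ZMod m)ˣ) :
    ∑ x ∈ cos q (u : ZMod m), c x =
      ∑ k ∈ univ.filter (fun k => k ∈ Kn m q), c ((k * u : (ZMod m)ˣ) : ZMod m) := by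
  have h1 : ∑ x ∈ (univ.filter (fun k => k ∈ Kn m q)).image
      (fun k : (ZMod m)ˣ => ((k * u : (ZMod m)ˣ) : ZMod m)), c x =
      ∑ k ∈ univ.filter (fun k => k ∈ Kn m q), c ((k * u : (ZMod m)ˣ) : ZMod m) := by
    apply sum_image
    intro k _ k' _ h
    exact mul_right_cancel (Units.ext h)
  rw [← h1]
  symm
  apply sum_subset
  · intro x hx
    obtain ⟨k, hk, rfl⟩ := mem_image.mp hx
    have hk' := mem_Kn.mp (mem_filter.mp hk).2
    rw [mem_cos, Units.val_mul, ← mul_assoc, hk']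
  · intro x hx hx2
    by_contra hne
    apply hx2
    have hxu : IsUnit x := by
      by_contra h
      exact hne (hc x h)
    obtain ⟨v, rfl⟩ := hxu
    rw [mem_image]
    refine ⟨v * u⁻¹, ?_, by simp⟩
    rw [mem_filter]
    refine ⟨mem_univ _, ?_⟩
    rw [mem_Kn, Units.val_mul, ← mul_assoc, mem_cos.mp hx, mul_assoc]
    simp

/-- the list of the subgroups for the primes of `P` other than `p` -/
noncomputable def LL (m p : ℕ) (P : Finset ℕ) : List (Subgroup (ZMod m)ˣ) :=
  (P.erase p).toList.map (Kn m)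

variable {p : ℕ} {P : Finset ℕ}

lemma ND.unit_supp {R : Type*} [AddCommGroup R] {c : ZMod m → R}
    (hall : ∀ q, q.Prime → q ∣ m → q ∈ P) (hc : ND p P c) (a : ZMod m) (ha : ¬ IsUnit a) :
    c a = 0 := by
  obtain ⟨q, hq, hqm, hqa⟩ := exists_dvd_of_not_unit ha
  exact hc.supp q (hall q hq hqm) a hqa

lemma ND.SZ {R : Type*} [AddCommGroup R] {c : ZMod m → R} (hP : ∀ q ∈ P, q.Prime ∧ q ∣ m)
    (hall : ∀ q, q.Prime → q ∣ m → q ∈ P) (hc : ND p P c) :
    SZ (LL m p P) (fun u : (ZMod m)ˣ => c (u : ZMod m)) := by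
  intro K hK u
  obtain ⟨q, hq, rfl⟩ := List.mem_map.mp hK
  rw [mem_toList, mem_erase] at hq
  obtain ⟨hqp, hq⟩ := hq
  obtain ⟨hqpr, hqm⟩ := hP q hq
  rw [← sum_cos_unit (hc.unit_supp hall), hc.dist q hqpr hqp hqm]
  exact hc.supp q hq _ (dvd_val_self_mul hqm _)

lemma ND_ez {R : Type*} [AddCommGroup R] {c : (ZMod m)ˣ → R} (hP : ∀ q ∈ P, q.Prime ∧ q ∣ m)
    (hall : ∀ q, q.Prime → q ∣ m → q ∈ P) (hneg : ∀ u, c (-u) = - c u) (hc : SZ (LL m p P) c) :
    ND p P (ez c) where
  neg := fun a => by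
    by_cases ha : IsUnit a
    · obtain ⟨u, rfl⟩ := ha
      rw [← Units.val_neg, ez_unit, ez_unit, hneg]
    · rw [ez_of_not ha, ez_of_not (fun h => ha (by simpa using h.neg)), neg_zero]
  dist := fun q hq hqp hqm a => by
    rw [ez_of_not (c := c) (not_unit_of_dvd hq hqm (dvd_val_self_mul hqm a))]
    by_cases hex : ∃ u : (ZMod m)ˣ, (u : ZMod m) ∈ cos q a
    · obtain ⟨u, hu⟩ := hex
      rw [← cos_eq_of_mem hu, sum_cos_unit (fun a ha => ez_of_not ha)]
      simp only [ez_unit]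
      refine hc (Kn m q) ?_ u
      unfold LL
      rw [List.mem_map]
      exact ⟨q, by rw [mem_toList, mem_erase]; exact ⟨hqp, hall q hq hqm⟩, rfl⟩
    · apply sum_eq_zero
      intro x hx
      apply ez_of_not
      rintro ⟨u, rfl⟩
      exact hex ⟨u, hx⟩
  supp := fun q hq a ha => ez_of_not (not_unit_of_dvd (hP q hq).1 (hP q hq).2 ha)

lemma sum_units {R : Type*} [AddCommGroup R] (g : ZMod m → ℤ) {c : ZMod m → R}
    (hc : ∀ a, ¬ IsUnit a → c a = 0) :
    ∑ a, g a • c a = ∑ u : (ZMod m)ˣ, g (u : ZMod m) • c (u : ZMod m) := by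
  have h1 : ∑ x ∈ univ.image (fun u : (ZMod m)ˣ => (u : ZMod m)), g x • c x =
      ∑ u : (ZMod m)ˣ, g (u : ZMod m) • c (u : ZMod m) :=
    sum_image fun u _ v _ h => Units.ext h
  rw [← h1]
  symm
  apply sum_subset (subset_univ _)
  intro x _ hx
  rw [hc x, smul_zero]
  rintro ⟨u, rfl⟩
  exact hx (mem_image.mpr ⟨u, mem_univ _, rfl⟩)

/-- the subgroup of signs -/
def Ks (m : ℕ) : Subgroup (ZMod m)ˣ where
  carrier := {u | u = 1 ∨ u = -1}
  mul_mem' := by
    rintro u v (rfl | rfl) (rfl | rfl) <;> simp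
  one_mem' := Or.inl rfl
  inv_mem' := by
    rintro u (rfl | rfl) <;> simp

lemma sum_Ks {R : Type*} [AddCommGroup R] (h : (-1 : (ZMod m)ˣ) ≠ 1) (F : (ZMod m)ˣ → R) :
    ∑ k ∈ univ.filter (fun k => k ∈ Ks m), F k = F 1 + F (-1) := by
  have : univ.filter (fun k => k ∈ Ks m) = {1, -1} := by
    ext k
    simp only [mem_filter, mem_univ, true_and, mem_insert, mem_singleton]
    exact Iff.rfl
  rw [this, sum_pair (Ne.symm h)]

lemma neg_one_not_mem (hp : p.Prime) (hp2 : p ≠ 2) (hpm : p ∣ m) :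
    (-1 : (ZMod m)ˣ) ∉ Kn m (m / p ^ m.factorization p) := by
  intro h
  rw [mem_Kn, Units.val_neg, Units.val_one] at h
  set n := m / p ^ m.factorization p with hn
  have h1 : ((2 * n : ℕ) : ZMod m) = 0 := by
    push_cast
    linear_combination -h
  rw [ZMod.natCast_eq_zero_iff] at h1
  have h2 : p ∣ 2 * n := hpm.trans h1
  rcases (Nat.Prime.dvd_mul hp).mp h2 with h3 | h3
  · exact hp2 ((Nat.prime_dvd_prime_iff_eq hp Nat.prime_two).mp h3)
  · exact Nat.not_dvd_ordCompl hp (NeZero.ne m) h3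

lemma neg_one_ne (hp : p.Prime) (hp2 : p ≠ 2) (hpm : p ∣ m) : (-1 : (ZMod m)ˣ) ≠ 1 := by
  intro h
  apply neg_one_not_mem hp hp2 hpm
  rw [h]; exact Subgroup.one_mem _

lemma supL_LL_le (hP : ∀ q ∈ P, q.Prime ∧ q ∣ m) (hp : p.Prime) :
    supL (LL m p P) ≤ Kn m (m / p ^ m.factorization p) := by
  have : ∀ rs : List ℕ, (∀ r ∈ rs, r ∈ P.erase p) → supL (rs.map (Kn m)) ≤
      Kn m (m / p ^ m.factorization p) := by
    intro rs
    induction rs with
    | nil => intro _; exact bot_le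
    | cons r rs ih2 =>
      intro hrs
      apply sup_le _ (ih2 fun x hx => hrs x (List.mem_cons_of_mem _ hx))
      apply Kn_mono
      have hr := hrs r (List.mem_cons_self ..)
      rw [mem_erase] at hr
      obtain ⟨hrpr, hrm⟩ := hP r hr.2
      have h1 : r ∣ p ^ m.factorization p * (m / p ^ m.factorization p) := by
        rw [Nat.ordProj_mul_ordCompl_eq_self]; exact hrm
      exact (Nat.Coprime.pow_right _ ((Nat.coprime_primes hrpr hp).mpr hr.1)).dvd_of_dvd_mul_left h1
  exact this _ fun r hr => mem_toList.mp hr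

/-- torsion-freeness, base case -/
theorem tf_base (hp : p.Prime) (hp2 : p ≠ 2) (hpm : p ∣ m) (hP : ∀ q ∈ P, q.Prime ∧ q ∣ m)
    (hall : ∀ q, q.Prime → q ∣ m → q ∈ P) (g : ZMod m → ℤ)
    (hg : ∀ c : ZMod m → ℝ, ND p P c → ∑ a, g a • c a = 0) (R : Type) [AddCommGroup R]
    (c : ZMod m → R) (hc : ND p P c) : ∑ a, g a • c a = 0 := by
  have hne := neg_one_ne (m := m) hp hp2 hpm
  have hIndL : Ind ⊥ (LL m p P) := by
    apply ind_list ⊥ _ (Finset.nodup_toList _)
    intro q hq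
    rw [mem_toList, mem_erase] at hq
    exact ⟨(hP q hq.2).1, (hP q hq.2).2, bot_le⟩
  have hInd : Ind ⊥ (Ks m :: LL m p P) := by
    refine ⟨?_, hIndL⟩
    rw [bot_sup_eq, eq_bot_iff]
    rintro u ⟨h1, h2⟩
    rw [Subgroup.mem_bot]
    rcases h1 with rfl | rfl
    · rfl
    · exact absurd (supL_LL_le hP hp h2) (neg_one_not_mem hp hp2 hpm)
  have hodd : ∀ {R : Type} [AddCommGroup R] (c : (ZMod m)ˣ → R),
      (∀ u, c (-u) = - c u) ↔ ∀ u, ∑ k ∈ univ.filter (fun k => k ∈ Ks m), c (k * u) = 0 := by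
    intro R _ c
    constructor
    · intro h u
      rw [sum_Ks hne, one_mul, neg_one_mul, h, add_neg_cancel]
    · intro h u
      have := h u
      rw [sum_Ks hne, one_mul, neg_one_mul] at this
      exact (neg_eq_of_add_eq_zero_right this).symm
  rw [sum_units g (hc.unit_supp hall)]
  refine tf_grp (Ks m :: LL m p P) hInd (fun u => g (u : ZMod m)) ?_ R
    (fun u : (ZMod m)ˣ => c (u : ZMod m)) ?_
  · intro c' hc'
    have hc'neg := (hodd c').mpr (hc' (Ks m) (List.mem_cons_self ..))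
    have h1 := hg (ez c') (ND_ez hP hall hc'neg (fun K hK => hc' K (List.mem_cons_of_mem _ hK)))
    rw [sum_units g (fun a ha => ez_of_not ha)] at h1
    simpa only [ez_unit] using h1
  · intro K hK
    rcases List.mem_cons.mp hK with rfl | hK
    · refine (hodd (fun u : (ZMod m)ˣ => c (u : ZMod m))).mp ?_
      intro u
      rw [Units.val_neg, hc.neg]
    · exact hc.SZ hP hall K hK

/-- the lower bound, base case -/
theorem bd_base (hp : p.Prime) (hP : ∀ q ∈ P, q.Prime ∧ q ∣ m)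
    (hall : ∀ q, q.Prime → q ∣ m → q ∈ P) (g : ZMod m → ℤ) (M : ℝ)
    (hM : 2 * M < Nat.card (Kn m p))
    (hb : ∀ c : ZMod m → ℝ, ND p P c → ∀ B : ℝ, (∀ u, |c u| ≤ B) → |∑ a, g a • c a| ≤ M * B)
    (hinv : ∀ c : ZMod m → ℝ, ND p P c → ∀ h ∈ Kn m p,
      ∑ a, g a • c ((h : ZMod m) * a) = ∑ a, g a • c a)
    (c : ZMod m → ℝ) (hc : ND p P c) : ∑ a, g a • c a = 0 := by
  have hInd : Ind (Kn m p) (LL m p P) := by
    apply ind_list _ _ (Finset.nodup_toList _)
    intro q hq
    rw [mem_toList, mem_erase] at hq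
    obtain ⟨hqpr, hqm⟩ := hP q hq.2
    refine ⟨hqpr, hqm, ?_⟩
    by_cases hpm : p ∣ m
    · apply Kn_mono
      have h1 : p ∣ q ^ m.factorization q * (m / q ^ m.factorization q) := by
        rw [Nat.ordProj_mul_ordCompl_eq_self]; exact hpm
      exact (Nat.Coprime.pow_right _
        ((Nat.coprime_primes hp hqpr).mpr (Ne.symm hq.1))).dvd_of_dvd_mul_left h1
    · intro u hu
      rw [mem_Kn] at hu
      have hpu : IsUnit ((p : ℕ) : ZMod m) :=
        (ZMod.isUnit_iff_coprime p m).mpr ((hp.coprime_iff_not_dvd).mpr hpm)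
      have h1 : (u : ZMod m) = 1 := by
        apply hpu.mul_left_cancel
        rw [hu, mul_one]
      rw [mem_Kn, h1, mul_one]
  -- the odd part of a function
  have key : ∀ (c' : (ZMod m)ˣ → ℝ), SZ (LL m p P) c' →
      ND p P (ez (fun u => c' u - c' (-u))) := by
    intro c' hc'
    apply ND_ez hP hall
    · intro u; rw [neg_neg]; ring
    · have h1 := hc'.sub (hc'.shift (-1))
      simpa only [neg_one_mul] using h1
  have key2 : ∀ (c' : (ZMod m)ˣ → ℝ), ∑ u : (ZMod m)ˣ, (g (u : ZMod m) - g (-(u : ZMod m))) • c' u =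
      ∑ a, g a • ez (fun u => c' u - c' (-u)) a := by
    intro c'
    rw [sum_units g (c := ez (fun u => c' u - c' (-u))) (fun a ha => ez_of_not ha)]
    simp only [ez_unit, sub_smul, smul_sub, sum_sub_distrib]
    congr 1
    rw [← Equiv.sum_comp (Equiv.neg (ZMod m)ˣ)]
    refine sum_congr rfl fun u _ => ?_
    simp
  have h0 := bd_grp (Kn m p) (LL m p P) hInd
    (fun u : (ZMod m)ˣ => g (u : ZMod m) - g (-(u : ZMod m))) (2 * M) hM ?_ ?_
    (fun u : (ZMod m)ˣ => c (u : ZMod m)) (hc.SZ hP hall)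
  · rw [key2] at h0
    have h1 : ∑ a, g a • ez (fun u : (ZMod m)ˣ => c (u : ZMod m) - c ((-u : (ZMod m)ˣ) : ZMod m)) a =
        2 * ∑ a, g a • c a := by
      rw [mul_sum]
      refine sum_congr rfl fun a _ => ?_
      by_cases ha : IsUnit a
      · obtain ⟨u, rfl⟩ := ha
        rw [ez_unit, Units.val_neg, hc.neg, zsmul_eq_mul, zsmul_eq_mul]
        ring
      · rw [ez_of_not ha, hc.unit_supp hall a ha]; simp
    rw [h1] at h0
    linarith
  · intro c' hc' B hB
    rw [key2]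
    have h1 := hb _ (key c' hc') (2 * B) (by
      intro a
      by_cases ha : IsUnit a
      · obtain ⟨u, rfl⟩ := ha
        rw [ez_unit]
        calc |c' u - c' (-u)| ≤ |c' u| + |c' (-u)| := abs_sub _ _
          _ ≤ B + B := add_le_add (hB _) (hB _)
          _ = 2 * B := by ring
      · rw [ez_of_not ha, abs_zero]
        have := (abs_nonneg _).trans (hB 1)
        linarith)
    calc _ ≤ M * (2 * B) := h1
      _ = 2 * M * B := by ring
  · intro c' hc' h hh
    have h1 := hinv _ (key c' hc') h hh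
    rw [key2 c', ← h1, key2]
    refine sum_congr rfl fun a _ => ?_
    congr 1
    by_cases ha : IsUnit a
    · obtain ⟨u, rfl⟩ := ha
      rw [← Units.val_mul, ez_unit, ez_unit, mul_neg]
    · rw [ez_of_not ha, ez_of_not]
      intro hu
      apply ha
      have := (h⁻¹).isUnit.mul hu
      rwa [← mul_assoc, Units.inv_mul, one_mul] at this

end

lemma card_Kn {p : ℕ} (hp : Nat.Prime p) (hpm : p ∣ m) : p - 1 ≤ Nat.card (Kn m p) := by
  classical
  obtain ⟨d, hd⟩ := hpm
  have hd0 : NeZero d := ⟨by rintro rfl; rw [mul_zero] at hd; exact NeZero.ne m hd⟩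
  have hdm : d ∣ m := Dvd.intro_left p hd.symm
  -- the kernel of the reduction
  have hker : (ZMod.unitsMap hdm).ker = Kn m p := by
    ext u
    rw [MonoidHom.mem_ker, mem_Kn]
    have h1 : pr hd.symm (u : ZMod m) = ((ZMod.unitsMap hdm u : (ZMod d)ˣ) : ZMod d) := by
      rw [ZMod.unitsMap_val]; rfl
    constructor
    · intro h
      rw [h, Units.val_one] at h1
      rw [← iota_pr hd.symm, h1]
      have h2 : (1 : ZMod d) = pr hd.symm (1 : ZMod m) := (map_one _).symm
      rw [h2, iota_pr hd.symm, mul_one]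
    · intro h
      apply Units.ext
      rw [← h1, Units.val_one, ← map_one (pr hd.symm)]
      apply iota_inj hd.symm
      rw [iota_pr, iota_pr, h, mul_one]
  rw [← hker]
  have hcard : Nat.card (ZMod m)ˣ = Nat.card (ZMod d)ˣ * Nat.card (ZMod.unitsMap hdm).ker := by
    have h1 := Subgroup.card_eq_card_quotient_mul_card_subgroup (ZMod.unitsMap hdm).ker
    rw [h1]
    congr 1
    exact Nat.card_congr (QuotientGroup.quotientKerEquivOfSurjective _
      (ZMod.unitsMap_surjective hdm)).toEquiv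
  rw [Nat.card_eq_fintype_card, Nat.card_eq_fintype_card, ZMod.card_units_eq_totient,
    ZMod.card_units_eq_totient] at hcard
  have hd1 : 0 < Nat.totient d := Nat.totient_pos.mpr (NeZero.pos d)
  by_cases hpd : p ∣ d
  · have h2 : Nat.totient m = p * Nat.totient d := by
      rw [hd]; exact Nat.totient_mul_of_prime_of_dvd hp hpd
    rw [h2] at hcard
    have h3 : p = Nat.card (ZMod.unitsMap hdm).ker := by
      apply Nat.eq_of_mul_eq_mul_left hd1
      rw [← hcard, mul_comm]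
    omega
  · have h2 : Nat.totient m = (p - 1) * Nat.totient d := by
      rw [hd]; exact Nat.totient_mul_of_prime_of_not_dvd hp hpd
    rw [h2] at hcard
    have h3 : p - 1 = Nat.card (ZMod.unitsMap hdm).ker := by
      apply Nat.eq_of_mul_eq_mul_left hd1
      rw [← hcard, mul_comm]
    omega

end Pool.Agent.N997.P
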