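import Pool.Agent.N997.P.Lvl
import Pool.Agent.N997.Fiber

/-!
Extension of a real distribution from level `m'` to level `l * m'`, with control of the size.
-/

namespace Pool.Agent.N997.P

open Finset Pool.Agent.H916R2

variable {m m' l : ℕ} [NeZero m] [NeZero m']

/-- the extension by zero -/
noncomputable def oo (l : ℕ) {m m' : ℕ} (c : ZMod m' → ℝ) (a : ZMod m) : ℝ :=
  if l ∣ a.val then c (dv l a) else 0

/-- the order of the kernel of the reduction of units -/
noncomputable def kap (l m' : ℕ) : ℝ := if l ∣ m' then l else l - 1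

/-- the extension -/
noncomputable def Ex (h : l * m' = m) (c : ZMod m' → ℝ) (a : ZMod m) : ℝ :=
  if l ∣ a.val then c (dv l a) else (kap l m')⁻¹ * (c (pr h a) - ∑ x ∈ cos l a, oo l c x)

lemma oo_iota (h : l * m' = m) (c : ZMod m' → ℝ) (b : ZMod m') : oo l c (iota l b : ZMod m) = c b := by
  unfold oo; rw [if_pos (dvd_val_iota h b), dv_iota h]

lemma oo_of_not {c : ZMod m' → ℝ} {a : ZMod m} (ha : ¬ l ∣ a.val) : oo l c a = 0 := if_neg ha

lemma Ex_iota (h : l * m' = m) (c : ZMod m' → ℝ) (b : ZMod m') : Ex h c (iota l b) = c b := by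
  unfold Ex; rw [if_pos (dvd_val_iota h b), dv_iota h]

lemma card_cos {q : ℕ} (hq : q ∣ m) (a : ZMod m) : (cos q a).card = q := by
  have h1 := card_fib hq a
  have h2 : fib m q ((q : ZMod m) * a) = cos q a := by
    ext x; rw [mem_fib, mem_cos]; simp
  rw [h2] at h1; exact h1

lemma kap_pos (hl : l.Prime) : 0 < kap l m' := by
  unfold kap
  have : (2 : ℝ) ≤ l := by exact_mod_cast hl.two_le
  split_ifs <;> linarith

/-- in a coset, exactly one element is divisible by `l` if `l` does not divide `m'` -/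
lemma exists_unique_old (h : l * m' = m) (hl : l.Prime) (hlm : ¬ l ∣ m') (a : ZMod m) :
    ∃ b : ZMod m', (iota l b : ZMod m) ∈ cos l a ∧
      ∀ x ∈ cos l a, l ∣ x.val → x = iota l b := by
  have hcop : Nat.Coprime l m' := (hl.coprime_iff_not_dvd).mpr hlm
  obtain ⟨u, hu⟩ := (ZMod.isUnit_iff_coprime l m').mpr hcop
  refine ⟨((u⁻¹ : (ZMod m')ˣ) : ZMod m') * pr h a, ?_, ?_⟩
  · rw [← pr_eq_iff h, pr_iota, ← hu, ← mul_assoc]
    simp
  · intro x hx hxl
    rw [← iota_dv h hxl]
    congr 1
    have h1 := (pr_eq_iff h a x).mpr hx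
    rw [← iota_dv h hxl, pr_iota, ← hu] at h1
    rw [← h1, ← mul_assoc]
    simp

lemma dvd_cos_self (h : l * m' = m) (hlm : l ∣ m') {a x : ZMod m} (hx : x ∈ cos l a) :
    l ∣ x.val ↔ l ∣ a.val := by
  have := (pr_eq_iff h a x).mpr hx
  rw [← dvd_pr_iff h hlm, this, dvd_pr_iff h hlm]

lemma sum_const_top (h : l * m' = m) (hl : l.Prime) (a : ZMod m) (hcase : ¬ (l ∣ m' ∧ l ∣ a.val))
    (T : ℝ) : ∑ x ∈ cos l a, (if l ∣ x.val then 0 else (kap l m')⁻¹ * T) = T := by
  have hlm : l ∣ m := Dvd.intro _ h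
  have hk := kap_pos (m' := m') hl
  by_cases hlm' : l ∣ m'
  · have ha : ¬ l ∣ a.val := fun ha => hcase ⟨hlm', ha⟩
    have h1 : ∀ x ∈ cos l a, (if l ∣ x.val then 0 else (kap l m')⁻¹ * T) = (kap l m')⁻¹ * T := by
      intro x hx
      rw [if_neg]
      rw [dvd_cos_self h hlm' hx]; exact ha
    rw [sum_congr rfl h1, sum_const, card_cos hlm, nsmul_eq_mul, ← mul_assoc]
    have : kap l m' = l := by unfold kap; rw [if_pos hlm']
    rw [← this, mul_inv_cancel₀ hk.ne', one_mul]
  · obtain ⟨b, hb1, hb2⟩ := exists_unique_old h hl hlm' a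
    rw [← Finset.add_sum_erase _ _ hb1, if_pos (dvd_val_iota h b), zero_add]
    have h1 : ∀ x ∈ (cos l a).erase (iota l b), (if l ∣ x.val then 0 else (kap l m')⁻¹ * T) =
        (kap l m')⁻¹ * T := by
      intro x hx
      rw [if_neg]
      intro hxl
      exact (mem_erase.mp hx).1 (hb2 x (mem_erase.mp hx).2 hxl)
    rw [sum_congr rfl h1, sum_const, card_erase_of_mem hb1, card_cos hlm, nsmul_eq_mul, ← mul_assoc]
    have : kap l m' = ((l - 1 : ℕ) : ℝ) := by
      unfold kap; rw [if_neg hlm', Nat.cast_sub hl.one_le, Nat.cast_one]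
    rw [← this, mul_inv_cancel₀ hk.ne', one_mul]

lemma oo_dist {p q : ℕ} {P : Finset ℕ} (h : l * m' = m) (hl : l.Prime) {c : ZMod m' → ℝ}
    (hc : ND p P c) (hq : q.Prime) (hqp : q ≠ p) (hql : q ≠ l) (hqm : q ∣ m) (a : ZMod m) :
    ∑ x ∈ cos q a, oo l c x = oo l c ((q : ZMod m) * a) := by
  have hlm : l ∣ m := Dvd.intro _ h
  have hcop : Nat.Coprime q l := (Nat.coprime_primes hq hl).mpr hql
  have hqm' : q ∣ m' := hcop.dvd_of_dvd_mul_left (by rw [h]; exact hqm)
  by_cases ha : l ∣ a.val
  · have e : a = iota l (dv l a : ZMod m') := (iota_dv h ha).symm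
    rw [e, sum_cos_iota h hcop, ← iota_natMul h, oo_iota h, ← hc.dist q hq hqp hqm']
    refine sum_congr rfl fun y _ => ?_
    rw [oo_iota h]
  · rw [oo_of_not (a := (q : ZMod m) * a) (by rw [dvd_val_mul_iff hlm hcop]; exact ha)]
    apply sum_eq_zero
    intro x hx
    rw [oo_of_not]
    rw [dvd_val_cos hlm hcop hx]; exact ha

theorem Ex_ND {p : ℕ} {P : Finset ℕ} (h : l * m' = m) (hP : ∀ q ∈ P, q.Prime ∧ q ∣ m')
    (hl : l.Prime) (hlP : l ∉ P) (hlp : l ≠ p) {c : ZMod m' → ℝ} (hc : ND p P c) :
    ND p P (Ex h c) := by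
  have hlm : l ∣ m := Dvd.intro _ h
  refine ⟨?_, ?_, ?_⟩
  · -- oddness
    intro a
    have hdvneg : ∀ x : ZMod m, l ∣ x.val → (dv l (-x) : ZMod m') = - dv l x := by
      intro x hx
      apply iota_inj h
      rw [iota_dv h ((dvd_val_neg hlm x).mpr hx), iota_neg h, iota_dv h hx]
    have hooneg : ∀ x : ZMod m, oo l c (-x) = - oo l c x := by
      intro x
      unfold oo
      by_cases hx : l ∣ x.val
      · rw [if_pos hx, if_pos ((dvd_val_neg hlm x).mpr hx), hdvneg x hx, hc.neg]
      · rw [if_neg hx, if_neg (fun h' => hx ((dvd_val_neg hlm x).mp h')), neg_zero]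
    unfold Ex
    by_cases ha : l ∣ a.val
    · rw [if_pos ha, if_pos ((dvd_val_neg hlm a).mpr ha), hdvneg a ha, hc.neg]
    · rw [if_neg ha, if_neg (fun h' => ha ((dvd_val_neg hlm a).mp h')), map_neg, hc.neg]
      have h1 : ∑ x ∈ cos l (-a), oo l c x = - ∑ x ∈ cos l a, oo l c x := by
        rw [← sum_neg_distrib]
        refine sum_bij (fun x _ => -x) ?_ ?_ ?_ ?_
        · intro x hx
          rw [mem_cos] at hx ⊢
          linear_combination -hx
        · intro x _ y _ hxy; exact neg_injective hxy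
        · intro y hy
          refine ⟨-y, ?_, neg_neg y⟩
          rw [mem_cos] at hy ⊢
          linear_combination -hy
        · intro x _
          rw [hooneg, neg_neg]
      rw [h1]; ring
  · -- the distribution relations
    intro q hq hqp hqm a
    by_cases hql : q = l
    · subst hql
      rw [← iota_pr h, Ex_iota h]
      have h1 : ∀ x ∈ cos q a, Ex h c x = oo q c x + (if q ∣ x.val then 0 else
          (kap q m')⁻¹ * (c (pr h a) - ∑ x ∈ cos q a, oo q c x)) := by
        intro x hx
        unfold Ex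
        rw [(pr_eq_iff h a x).mpr hx, cos_eq_of_mem hx]
        by_cases hxq : q ∣ x.val
        · rw [if_pos hxq, if_pos hxq, add_zero]; unfold oo; rw [if_pos hxq]
        · rw [if_neg hxq, if_neg hxq, oo_of_not hxq, zero_add]
      rw [sum_congr rfl h1, sum_add_distrib]
      by_cases hcase : q ∣ m' ∧ q ∣ a.val
      · have h2 : ∑ x ∈ cos q a, (if q ∣ x.val then 0 else
            (kap q m')⁻¹ * (c (pr h a) - ∑ x ∈ cos q a, oo q c x)) = 0 := by
          apply sum_eq_zero
          intro x hx
          rw [if_pos]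
          rw [dvd_cos_self h hcase.1 hx]; exact hcase.2
        rw [h2, add_zero]
        have e : a = iota q (dv q a : ZMod m') := (iota_dv h hcase.2).symm
        rw [e, sum_cos_iota_self h hcase.1, pr_iota, ← hc.dist q hq hqp hcase.1]
        refine sum_congr rfl fun y _ => ?_
        rw [oo_iota h]
      · rw [sum_const_top h hq a hcase]
        ring
    · have hcop : Nat.Coprime q l := (Nat.coprime_primes hq hl).mpr hql
      have hqm' : q ∣ m' := hcop.dvd_of_dvd_mul_left (by rw [h]; exact hqm)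
      by_cases ha : l ∣ a.val
      · have e : a = iota l (dv l a : ZMod m') := (iota_dv h ha).symm
        rw [e, sum_cos_iota h hcop, ← iota_natMul h, Ex_iota h, ← hc.dist q hq hqp hqm']
        refine sum_congr rfl fun y _ => ?_
        rw [Ex_iota h]
      · have h1 : ∀ x ∈ cos q a, Ex h c x =
            (kap l m')⁻¹ * (c (pr h x) - ∑ y ∈ cos l x, oo l c y) := by
          intro x hx
          unfold Ex
          rw [if_neg]
          rw [dvd_val_cos hlm hcop hx]; exact ha
        rw [sum_congr rfl h1, ← mul_sum, sum_sub_distrib, sum_cos_pr h hcop,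
          hc.dist q hq hqp hqm']
        unfold Ex
        rw [if_neg (by rw [dvd_val_mul_iff hlm hcop]; exact ha), map_mul, map_natCast]
        congr 2
        -- the double sum
        have h2 : ∑ x ∈ cos q a, ∑ y ∈ cos l x, oo l c y =
            ∑ y ∈ cos l a, ∑ x ∈ cos q y, oo l c x := by
          rw [sum_sigma', sum_sigma']
          refine sum_bij (fun z _ => ⟨a + z.2 - z.1, z.2⟩) ?_ ?_ ?_ ?_
          · rintro ⟨x, y⟩ hxy
            simp only [mem_sigma, mem_cos] at hxy ⊢
            exact ⟨by linear_combination hxy.2, by linear_combination hxy.1⟩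
          · rintro ⟨x, y⟩ _ ⟨x', y'⟩ _ he
            simp only [Sigma.mk.injEq, heq_eq_eq] at he ⊢
            obtain ⟨e1, e2⟩ := he
            subst e2
            exact ⟨by linear_combination -e1, rfl⟩
          · rintro ⟨y, x⟩ hyx
            simp only [mem_sigma, mem_cos] at hyx
            refine ⟨⟨a + x - y, x⟩, ?_, ?_⟩
            · simp only [mem_sigma, mem_cos]
              exact ⟨by linear_combination hyx.2, by linear_combination hyx.1⟩
            · simp only [Sigma.mk.injEq, heq_eq_eq, and_true]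
              ring
          · rintro ⟨x, y⟩ _; rfl
        rw [h2, ← sum_cos_mul hcop (oo l c) a]
        refine sum_congr rfl fun y _ => ?_
        exact oo_dist h hl hc hq hqp hql hqm y
  · -- support
    intro q hq a ha
    obtain ⟨hqpr, hqm'⟩ := hP q hq
    have hne : l ≠ q := fun e => hlP (e ▸ hq)
    have hcop : Nat.Coprime l q := (Nat.coprime_primes hl hqpr).mpr hne
    have hqm : q ∣ m := hqm'.trans (Dvd.intro_left l h)
    have hoo : ∀ x : ZMod m, q ∣ x.val → oo l c x = 0 := by
      intro x hx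
      by_cases hxl : l ∣ x.val
      · have e : x = iota l (dv l x : ZMod m') := (iota_dv h hxl).symm
        rw [e, oo_iota h]
        apply hc.supp q hq
        rw [e, dvd_iota_iff h hqm' hcop] at hx
        exact hx
      · exact oo_of_not hxl
    by_cases hal : l ∣ a.val
    · have e : a = iota l (dv l a : ZMod m') := (iota_dv h hal).symm
      rw [e, Ex_iota h]
      apply hc.supp q hq
      rw [e, dvd_iota_iff h hqm' hcop] at ha
      exact ha
    · unfold Ex
      rw [if_neg hal, hc.supp q hq _ ((dvd_pr_iff h hqm' a).mpr ha)]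
      have h1 : ∑ x ∈ cos l a, oo l c x = 0 := by
        apply sum_eq_zero
        intro x hx
        apply hoo
        rw [dvd_val_cos hqm hcop hx]; exact ha
      rw [h1]; simp

/-- the growth of the size -/
noncomputable def ww (l m' : ℕ) : ℝ := if l = 2 ∧ ¬ 2 ∣ m' then 2 else 1

theorem Ex_bound (h : l * m' = m) (hl : l.Prime) {c : ZMod m' → ℝ} {B : ℝ} (hB : ∀ b, |c b| ≤ B)
    (a : ZMod m) : |Ex h c a| ≤ ww l m' * B := by
  have hB0 : 0 ≤ B := (abs_nonneg _).trans (hB 0)
  have hw : (1 : ℝ) ≤ ww l m' := by unfold ww; split_ifs <;> norm_num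
  have hle : B ≤ ww l m' * B := by nlinarith
  have hl2 : (2 : ℝ) ≤ l := by exact_mod_cast hl.two_le
  unfold Ex
  by_cases ha : l ∣ a.val
  · rw [if_pos ha]; exact (hB _).trans hle
  · rw [if_neg ha, abs_mul, abs_of_nonneg (inv_nonneg.mpr (kap_pos (m' := m') hl).le)]
    by_cases hlm' : l ∣ m'
    · have h1 : ∑ x ∈ cos l a, oo l c x = 0 := by
        apply sum_eq_zero
        intro x hx
        apply oo_of_not
        rw [dvd_cos_self h hlm' hx]; exact ha
      rw [h1, sub_zero]
      have hk : kap l m' = l := by unfold kap; rw [if_pos hlm']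
      rw [hk]
      have h2 : (l : ℝ)⁻¹ ≤ 1 := inv_le_one_of_one_le₀ (by linarith)
      calc (l : ℝ)⁻¹ * |c (pr h a)| ≤ 1 * |c (pr h a)| :=
            mul_le_mul_of_nonneg_right h2 (abs_nonneg _)
        _ ≤ ww l m' * B := by rw [one_mul]; exact (hB _).trans hle
    · obtain ⟨b, hb1, hb2⟩ := exists_unique_old h hl hlm' a
      have h1 : ∑ x ∈ cos l a, oo l c x = c b := by
        rw [Finset.sum_eq_single_of_mem _ hb1, oo_iota h]
        intro x hx hne
        apply oo_of_not
        intro hxl
        exact hne (hb2 x hx hxl)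
      rw [h1]
      have hk : kap l m' = l - 1 := by unfold kap; rw [if_neg hlm']
      rw [hk]
      have h3 : |c (pr h a) - c b| ≤ 2 * B := by
        calc |c (pr h a) - c b| ≤ |c (pr h a)| + |c b| := abs_sub _ _
          _ ≤ B + B := add_le_add (hB _) (hB _)
          _ = 2 * B := by ring
      have hl1 : (0 : ℝ) < l - 1 := by linarith
      rw [inv_mul_le_iff₀ hl1]
      refine h3.trans ?_
      by_cases hl3 : l = 2
      · have hw2 : ww l m' = 2 := by
          unfold ww; rw [if_pos]; exact ⟨hl3, by rw [← hl3]; exact hlm'⟩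
        rw [hw2, hl3]; push_cast; nlinarith
      · have hl4 : (3 : ℝ) ≤ l := by
          have := hl.two_le
          have h5 : 3 ≤ l := by omega
          exact_mod_cast h5
        have hw1 : ww l m' = 1 := by
          unfold ww; rw [if_neg]; rintro ⟨h6, _⟩; exact hl3 h6
        rw [hw1]; nlinarith

lemma Ex_mul {n : ℕ} (h : l * m' = m) (hn : Nat.Coprime n l) (c : ZMod m' → ℝ) (a : ZMod m) :
    Ex h (fun b => c ((n : ZMod m') * b)) a = Ex h c ((n : ZMod m) * a) := by
  have hlm : l ∣ m := Dvd.intro _ h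
  have hoo : ∀ x : ZMod m, oo l (fun b : ZMod m' => c ((n : ZMod m') * b)) x =
      oo l c ((n : ZMod m) * x) := by
    intro x
    by_cases hx : l ∣ x.val
    · have e : x = iota l (dv l x : ZMod m') := (iota_dv h hx).symm
      rw [e, ← iota_natMul h, oo_iota h, oo_iota h]
    · rw [oo_of_not hx, oo_of_not]
      rw [dvd_val_mul_iff hlm hn]; exact hx
  by_cases ha : l ∣ a.val
  · have e : a = iota l (dv l a : ZMod m') := (iota_dv h ha).symm
    rw [e, ← iota_natMul h, Ex_iota h, Ex_iota h]
  · unfold Ex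
    rw [if_neg ha, if_neg (by rw [dvd_val_mul_iff hlm hn]; exact ha), map_mul, map_natCast,
      ← sum_cos_mul hn (oo l c) a]
    congr 2
    exact sum_congr rfl fun x _ => hoo x

end Pool.Agent.N997.P
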