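import Pool.Agent.N997.P.Ext
import Pool.Agent.N997.P.Base

/-!
Induction on the level: torsion-freeness and the lower bound for all levels.
-/

namespace Pool.Agent.N997.P

open Finset Pool.Agent.H916R2

/-- Induction on the level and the number of primes which are not new. -/
theorem ND_ind {p : ℕ} (motive : (m : ℕ) → [NeZero m] → Finset ℕ → Prop)
    (base : ∀ (m : ℕ) [NeZero m] (P : Finset ℕ), p ∈ P → (∀ q ∈ P, q.Prime ∧ q ∣ m) →
      (∀ q, q.Prime → q ∣ m → q ∈ P) → motive m P)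
    (step : ∀ (m m' l : ℕ) [NeZero m] [NeZero m'] (P : Finset ℕ), p ∈ P →
      (∀ q ∈ P, q.Prime ∧ q ∣ m') → l.Prime → l ∉ P → l * m' = m →
      motive m (insert l P) → motive m' P → motive m P) :
    ∀ (m : ℕ) [NeZero m] (P : Finset ℕ), p ∈ P → (∀ q ∈ P, q.Prime ∧ q ∣ m) → motive m P := by
  suffices H : ∀ (N m : ℕ) [NeZero m] (P : Finset ℕ), m + (m.primeFactors \ P).card ≤ N →
      p ∈ P → (∀ q ∈ P, q.Prime ∧ q ∣ m) → motive m P by
    intro m _ P h1 h2
    exact H _ m P le_rfl h1 h2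
  intro N
  induction N with
  | zero =>
    intro m _ P hN
    have := NeZero.pos m
    omega
  | succ N ih =>
    intro m _ P hN hp hP
    by_cases hall : ∀ q, q.Prime → q ∣ m → q ∈ P
    · exact base m P hp hP hall
    · push Not at hall
      obtain ⟨l, hl, hlm, hlP⟩ := hall
      obtain ⟨m', hm'⟩ := hlm
      have hm0 : NeZero m' := ⟨by rintro rfl; rw [mul_zero] at hm'; exact NeZero.ne m hm'⟩
      have hlt : m' < m := by
        have := hl.two_le
        have := NeZero.pos m'
        rw [hm']; nlinarith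
      have hP' : ∀ q ∈ P, q.Prime ∧ q ∣ m' := by
        intro q hq
        obtain ⟨h1, h2⟩ := hP q hq
        refine ⟨h1, ?_⟩
        have hne : q ≠ l := fun e => hlP (e ▸ hq)
        rw [hm'] at h2
        exact ((Nat.coprime_primes h1 hl).mpr hne).dvd_of_dvd_mul_left h2
      have hlmem : l ∈ m.primeFactors := Nat.mem_primeFactors.mpr ⟨hl, ⟨m', hm'⟩, NeZero.ne m⟩
      refine step m m' l P hp hP' hl hlP hm'.symm ?_ ?_
      · apply ih m (insert l P) _ (mem_insert_of_mem hp)
        · intro q hq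
          rcases mem_insert.mp hq with rfl | hq
          · exact ⟨hl, ⟨m', hm'⟩⟩
          · exact hP q hq
        · have hcard : (m.primeFactors \ insert l P).card < (m.primeFactors \ P).card := by
            apply card_lt_card
            rw [Finset.ssubset_iff_of_subset (sdiff_subset_sdiff (subset_refl _) (subset_insert _ _))]
            refine ⟨l, ?_, ?_⟩
            · rw [mem_sdiff]; exact ⟨hlmem, hlP⟩
            · rw [mem_sdiff, not_and, not_not]; intro _; exact mem_insert_self _ _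
          omega
      · apply ih m' P _ hp hP'
        have hcard : (m'.primeFactors \ P).card ≤ (m.primeFactors \ P).card := by
          apply card_le_card
          apply sdiff_subset_sdiff _ (subset_refl _)
          exact Nat.primeFactors_mono (Dvd.intro_left l hm'.symm) (NeZero.ne m)
        omega

/-- an integral combination killed by the distributions vanishing on the `l`-old residues is old -/
lemma split {m m' l p : ℕ} [NeZero m] [NeZero m'] {P : Finset ℕ} (h : l * m' = m)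
    (g : ZMod m → ℤ)
    (hg : ∀ (R : Type) [AddCommGroup R] (c : ZMod m → R), ND p (insert l P) c → ∑ a, g a • c a = 0)
    (R : Type) [AddCommGroup R] (c : ZMod m → R) (hc : ND p P c) :
    ∃ g' : ZMod m' → ℤ, ∑ a, g a • c a = ∑ b, g' b • c (iota l b) := by
  classical
  let Φ : (ZMod m' → ℤ) →+ R :=
    { toFun := fun y => ∑ b, y b • c (iota l b)
      map_zero' := by simp
      map_add' := by
        intro y z
        simp only [Pi.add_apply, add_smul, sum_add_distrib] }
  let S : AddSubgroup R := Φ.range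
  have hS : ∀ b : ZMod m', c (iota l b) ∈ S := by
    intro b
    refine ⟨Pi.single b 1, ?_⟩
    change ∑ b', (Pi.single b (1 : ℤ) : ZMod m' → ℤ) b' • c (iota l b') = c (iota l b)
    rw [Finset.sum_eq_single b]
    · simp
    · intro b' _ hb; rw [Pi.single_eq_of_ne hb, zero_smul]
    · intro h; exact absurd (mem_univ b) h
  let c' : ZMod m → R ⧸ S := fun a => QuotientAddGroup.mk (c a)
  have hc' : ND p (insert l P) c' := by
    refine ⟨?_, ?_, ?_⟩
    · intro a; simp only [c']; rw [hc.neg, QuotientAddGroup.mk_neg]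
    · intro q hq hqp hqm a
      simp only [c']
      rw [← hc.dist q hq hqp hqm, QuotientAddGroup.mk_sum]
    · intro q hq a ha
      simp only [c']
      rcases mem_insert.mp hq with rfl | hq
      · rw [QuotientAddGroup.eq_zero_iff, ← iota_dv h ha]
        exact hS _
      · rw [hc.supp q hq a ha, QuotientAddGroup.mk_zero]
  have h1 := hg (R ⧸ S) c' hc'
  have h2 : ∑ a, g a • c' a = QuotientAddGroup.mk (∑ a, g a • c a) := by
    rw [QuotientAddGroup.mk_sum]
    refine sum_congr rfl fun a _ => ?_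
    simp only [c']
    rw [QuotientAddGroup.mk_zsmul]
  rw [h2, QuotientAddGroup.eq_zero_iff] at h1
  obtain ⟨g', hg'⟩ := h1
  exact ⟨g', hg'.symm⟩

/-- Torsion-freeness at all levels. -/
theorem tf {p : ℕ} (hp : p.Prime) (hp2 : p ≠ 2) : ∀ (m : ℕ) [NeZero m] (P : Finset ℕ), p ∈ P →
    (∀ q ∈ P, q.Prime ∧ q ∣ m) → ∀ g : ZMod m → ℤ,
    (∀ c : ZMod m → ℝ, ND p P c → ∑ a, g a • c a = 0) →
    ∀ (R : Type) [AddCommGroup R] (c : ZMod m → R), ND p P c → ∑ a, g a • c a = 0 := by
  apply ND_ind (p := p) (motive := fun m _ P => ∀ g : ZMod m → ℤ,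
    (∀ c : ZMod m → ℝ, ND p P c → ∑ a, g a • c a = 0) →
    ∀ (R : Type) [AddCommGroup R] (c : ZMod m → R), ND p P c → ∑ a, g a • c a = 0)
  · intro m _ P hpP hP hall g hg R _ c hc
    exact tf_base hp hp2 (hP p hpP).2 hP hall g hg R c hc
  · intro m m' l _ _ P hpP hP hl hlP h ih1 ih2 g hg R _ c hc
    have hlp : l ≠ p := fun e => hlP (e ▸ hpP)
    have hg1 := ih1 g (fun c hc => hg c (hc.mono (subset_insert _ _)))
    let D := {c' : ZMod m → ℝ // ND p P c'}
    let c2 : ZMod m → R × (D → ℝ) := fun a => (c a, fun c' => c'.1 a)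
    have hc2 : ND p P c2 := by
      refine ⟨?_, ?_, ?_⟩
      · intro a
        refine Prod.ext (hc.neg a) ?_
        funext c'
        exact c'.2.neg a
      · intro q hq hqp hqm a
        refine Prod.ext ?_ ?_
        · rw [Prod.fst_sum]; exact hc.dist q hq hqp hqm a
        · rw [Prod.snd_sum]
          funext c'
          rw [Finset.sum_apply]
          exact c'.2.dist q hq hqp hqm a
      · intro q hq a ha
        refine Prod.ext (hc.supp q hq a ha) ?_
        funext c'
        exact c'.2.supp q hq a ha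
    obtain ⟨g', hg'⟩ := split h g hg1 _ c2 hc2
    have e1 : ∑ a, g a • c a = ∑ b, g' b • c (iota l b) := by
      have := congrArg Prod.fst hg'
      rw [Prod.fst_sum, Prod.fst_sum] at this
      simpa [c2] using this
    have e2 : ∀ c' : ZMod m → ℝ, ND p P c' → ∑ a, g a • c' a = ∑ b, g' b • c' (iota l b) := by
      intro c' hc'
      have := congrFun (congrArg Prod.snd hg') ⟨c', hc'⟩
      rw [Prod.snd_sum, Prod.snd_sum, Finset.sum_apply, Finset.sum_apply] at this
      simpa [c2] using this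
    rw [e1]
    refine ih2 g' ?_ R (fun b => c (iota l b)) (hc.comp_iota h hP hl hlP)
    intro c'' hc''
    have h3 := e2 (Ex h c'') (Ex_ND h hP hl hlP hlp hc'')
    rw [hg _ (Ex_ND h hP hl hlP hlp hc'')] at h3
    rw [h3]
    refine sum_congr rfl fun b _ => ?_
    rw [Ex_iota h]

/-- the factor for the prime two -/
noncomputable def cc (m : ℕ) : ℝ := if 2 ∣ m then 2 else 1

lemma exists_rep {m p M : ℕ} [NeZero m] (hp : p.Prime) (hpm : p ∣ m) (hmM : m ∣ M)
    (hpM : ¬ p ∣ M / m) (hM : M ≠ 0) {h : (ZMod m)ˣ} (hh : h ∈ Kn m p) :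
    ∃ n : ℕ, n ≡ 1 [MOD M / p] ∧ ¬ p ∣ n ∧ (n : ZMod m) = h := by
  obtain ⟨i, _, hi⟩ := exists_of_mul_eq_zero hpm (z := (h : ZMod m) - 1) (by
    rw [mul_sub, mem_Kn.mp hh]; ring)
  set r := M / m with hr
  have hMr : M = m * r := (Nat.mul_div_cancel' hmM).symm
  obtain ⟨d, hd⟩ := hpm
  have hmd : m / p = d := by rw [hd]; exact Nat.mul_div_cancel_left _ hp.pos
  have hMp : M / p = r * d := by
    rw [hMr, hd]
    rw [show p * d * r = p * (r * d) by ring]
    exact Nat.mul_div_cancel_left _ hp.pos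
  have hcop : Nat.Coprime r p := ((hp.coprime_iff_not_dvd).mpr hpM).symm
  obtain ⟨k, hk⟩ : ∃ k : ℕ, (k * r) ≡ i [MOD p] := by
    have hpf : NeZero p := ⟨hp.ne_zero⟩
    obtain ⟨u, hu⟩ := (ZMod.isUnit_iff_coprime r p).mpr hcop
    refine ⟨(((u⁻¹ : (ZMod p)ˣ) : ZMod p) * (i : ZMod p)).val, ?_⟩
    rw [← ZMod.natCast_eq_natCast_iff]
    push_cast
    rw [ZMod.natCast_zmod_val, ← hu, mul_comm, ← mul_assoc]
    simp
  have hn : ((1 + k * (M / p) : ℕ) : ZMod m) = h := by
    have h1 : ((k * r * d : ℕ) : ZMod m) = ((i * d : ℕ) : ZMod m) := by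
      rw [ZMod.natCast_eq_natCast_iff]
      have := Nat.ModEq.mul_right' d hk
      rwa [← hd] at this
    rw [hmd] at hi
    have h2 : (h : ZMod m) = 1 + (i : ZMod m) * (d : ZMod m) := by rw [← hi]; ring
    rw [h2, hMp, Nat.cast_add, Nat.cast_one, ← mul_assoc, h1]
    push_cast; ring
  refine ⟨1 + k * (M / p), ?_, ?_, hn⟩
  · have : 1 + k * (M / p) ≡ 1 + 0 [MOD M / p] :=
      Nat.ModEq.add_left 1 ((Nat.modEq_zero_iff_dvd).mpr (dvd_mul_left _ _))
    simpa using this
  · intro hdvd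
    have h1 : IsUnit ((1 + k * (M / p) : ℕ) : ZMod m) := by rw [hn]; exact h.isUnit
    rw [ZMod.isUnit_iff_coprime] at h1
    have h2 : p ∣ Nat.gcd (1 + k * (M / p)) m := Nat.dvd_gcd hdvd ⟨d, hd⟩
    rw [h1] at h2
    exact hp.one_lt.ne' (Nat.dvd_one.mp h2)

/-- The lower bound at all levels. -/
theorem bd {p : ℕ} (hp : p.Prime) (hp2 : p ≠ 2) (M : ℕ) (hM : M ≠ 0) :
    ∀ (m : ℕ) [NeZero m] (P : Finset ℕ), p ∈ P →
    (∀ q ∈ P, q.Prime ∧ q ∣ m) → m ∣ M → ¬ p ∣ M / m → ∀ (g : ZMod m → ℤ) (K : ℝ),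
    0 ≤ K → 2 * (K * cc m) < p - 1 →
    (∀ c : ZMod m → ℝ, ND p P c → ∀ B : ℝ, (∀ u, |c u| ≤ B) → |∑ a, g a • c a| ≤ K * B) →
    (∀ c : ZMod m → ℝ, ND p P c → ∀ n : ℕ, n ≡ 1 [MOD M / p] → ¬ p ∣ n →
      ∑ a, g a • c ((n : ZMod m) * a) = ∑ a, g a • c a) →
    ∀ c : ZMod m → ℝ, ND p P c → ∑ a, g a • c a = 0 := by
  apply ND_ind (p := p) (motive := fun m _ P => m ∣ M → ¬ p ∣ M / m → ∀ (g : ZMod m → ℤ) (K : ℝ),
    0 ≤ K → 2 * (K * cc m) < p - 1 →
    (∀ c : ZMod m → ℝ, ND p P c → ∀ B : ℝ, (∀ u, |c u| ≤ B) → |∑ a, g a • c a| ≤ K * B) →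
    (∀ c : ZMod m → ℝ, ND p P c → ∀ n : ℕ, n ≡ 1 [MOD M / p] → ¬ p ∣ n →
      ∑ a, g a • c ((n : ZMod m) * a) = ∑ a, g a • c a) →
    ∀ c : ZMod m → ℝ, ND p P c → ∑ a, g a • c a = 0)
  · intro m _ P hpP hP hall hmM hpM g K hK hlt hb hinv c hc
    have hpm := (hP p hpP).2
    refine bd_base hp hP hall g K ?_ hb ?_ c hc
    · have h1 : ((p - 1 : ℕ) : ℝ) ≤ Nat.card (Kn m p) := by exact_mod_cast card_Kn (m := m) hp hpm
      rw [Nat.cast_sub hp.one_le, Nat.cast_one] at h1
      have h2 : (1 : ℝ) ≤ cc m := by unfold cc; split_ifs <;> norm_num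
      nlinarith
    · intro c hc h hh
      obtain ⟨n, hn1, hn2, hn3⟩ := exists_rep hp hpm hmM hpM hM hh
      rw [← hinv c hc n hn1 hn2, hn3]
  · intro m m' l _ _ P hpP hP hl hlP h ih1 ih2 hmM hpM g K hK hlt hb hinv c hc
    have hlp : l ≠ p := fun e => hlP (e ▸ hpP)
    have hP1 : ∀ q ∈ P, q.Prime ∧ q ∣ m := fun q hq =>
      ⟨(hP q hq).1, (hP q hq).2.trans (Dvd.intro_left l h)⟩
    have hlm : l ∣ m := Dvd.intro _ h
    have hP2 : ∀ q ∈ insert l P, q.Prime ∧ q ∣ m := by
      intro q hq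
      rcases mem_insert.mp hq with rfl | hq
      · exact ⟨hl, hlm⟩
      · exact hP1 q hq
    -- the new distributions
    have hg0 := ih1 hmM hpM g K hK hlt (fun c hc => hb c (hc.mono (subset_insert _ _)))
      (fun c hc => hinv c (hc.mono (subset_insert _ _)))
    have hg1 := tf hp hp2 m (insert l P) (mem_insert_of_mem hpP) hP2 g hg0
    -- the integral combination at the lower level
    let D := {c' : ZMod m → ℝ // ND p P c'}
    let c2 : ZMod m → (D → ℝ) := fun a c' => c'.1 a
    have hc2 : ND p P c2 := by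
      refine ⟨?_, ?_, ?_⟩
      · intro a
        funext c'
        exact c'.2.neg a
      · intro q hq hqp hqm a
        funext c'
        rw [Finset.sum_apply]
        exact c'.2.dist q hq hqp hqm a
      · intro q hq a ha
        funext c'
        exact c'.2.supp q hq a ha
    obtain ⟨g', hg'⟩ := split h g hg1 _ c2 hc2
    have e2 : ∀ c' : ZMod m → ℝ, ND p P c' → ∑ a, g a • c' a = ∑ b, g' b • c' (iota l b) := by
      intro c' hc'
      have := congrFun hg' ⟨c', hc'⟩
      rw [Finset.sum_apply, Finset.sum_apply] at this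
      simpa [c2] using this
    have e3 : ∀ c' : ZMod m' → ℝ, ND p P c' → ∑ a, g a • Ex h c' a = ∑ b, g' b • c' b := by
      intro c' hc'
      rw [e2 _ (Ex_ND h hP hl hlP hlp hc')]
      refine sum_congr rfl fun b _ => ?_
      rw [Ex_iota h]
    rw [e2 c hc]
    have hmm' : M / m' = l * (M / m) := by
      obtain ⟨r, hr⟩ := hmM
      rw [hr, Nat.mul_div_cancel_left _ (NeZero.pos m), ← h,
        show l * m' * r = m' * (l * r) by ring, Nat.mul_div_cancel_left _ (NeZero.pos m')]
    have hw0 : (0 : ℝ) ≤ ww l m' := by unfold ww; split_ifs <;> norm_num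
    refine ih2 ((Dvd.intro_left l h).trans hmM) ?_ g' (K * ww l m') (mul_nonneg hK hw0) ?_ ?_ ?_
      (fun b => c (iota l b)) (hc.comp_iota h hP hl hlP)
    · rw [hmm']
      intro hdvd
      rcases (Nat.Prime.dvd_mul hp).mp hdvd with h1 | h1
      · exact hlp ((Nat.prime_dvd_prime_iff_eq hp hl).mp h1).symm
      · exact hpM h1
    · refine lt_of_le_of_lt ?_ hlt
      have h1 : ww l m' * cc m' ≤ cc m := by
        unfold ww cc
        by_cases hl2 : l = 2
        · rw [if_pos (show 2 ∣ m by rw [← hl2]; exact hlm)]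
          by_cases h2m : 2 ∣ m'
          · rw [if_neg (by rintro ⟨_, h3⟩; exact h3 h2m), if_pos h2m]; norm_num
          · rw [if_pos ⟨hl2, h2m⟩, if_neg h2m]; norm_num
        · rw [if_neg (by rintro ⟨h3, _⟩; exact hl2 h3), one_mul]
          by_cases h2m : 2 ∣ m'
          · rw [if_pos h2m, if_pos (h2m.trans (Dvd.intro_left l h))]
          · rw [if_neg h2m]; split_ifs <;> norm_num
      have h2 : K * ww l m' * cc m' = K * (ww l m' * cc m') := by ring
      rw [h2]
      have := mul_le_mul_of_nonneg_left h1 hK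
      linarith
    · intro c' hc' B hB
      rw [← e3 c' hc', mul_assoc]
      exact hb _ (Ex_ND h hP hl hlP hlp hc') _ (Ex_bound h hl hB)
    · intro c' hc' n hn1 hn2
      have hnl : ∀ q, q.Prime → q ≠ p → q ∣ m → Nat.Coprime n q := by
        intro q hq hqp hqm
        have h1 : q ∣ M / p := by
          have h2 : q ∣ p * (M / p) := by
            rw [Nat.mul_div_cancel' ((hP1 p hpP).2.trans hmM)]; exact hqm.trans hmM
          exact ((Nat.coprime_primes hq hp).mpr hqp).dvd_of_dvd_mul_left h2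
        have h2 := hn1.of_dvd h1
        have h3 : Nat.gcd n q = Nat.gcd 1 q := h2.gcd_eq
        rw [Nat.coprime_iff_gcd_eq_one, h3]; simp
      have hcn : ND p P (fun b : ZMod m' => c' ((n : ZMod m') * b)) := hc'.comp_mul
        (fun q hq => (hP q hq).2) (fun q hq hqp hqm => hnl q hq hqp (hqm.trans (Dvd.intro_left l h)))
      rw [← e3 _ hcn, ← e3 c' hc']
      rw [← hinv _ (Ex_ND h hP hl hlP hlp hc') n hn1 hn2]
      refine sum_congr rfl fun a _ => ?_
      rw [Ex_mul h (hnl l hl hlp hlm)]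

end Pool.Agent.N997.P
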