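import Pool.Agent.H916R2.Relations

/-!
Levels: the embedding `iota`, division and reduction; distributions for all primes but one.
-/

namespace Pool.Agent.N997.P

open Finset Pool.Agent.H916R2

/-- the coset of the kernel of multiplication by `q` -/
def cos {m : ℕ} [NeZero m] (q : ℕ) (a : ZMod m) : Finset (ZMod m) :=
  univ.filter (fun x : ZMod m => (q : ZMod m) * x = (q : ZMod m) * a)

lemma mem_cos {m : ℕ} [NeZero m] {q : ℕ} {a x : ZMod m} :
    x ∈ cos q a ↔ (q : ZMod m) * x = (q : ZMod m) * a := by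
  simp [cos]

/-- The odd distributions for the primes other than `p`, which vanish on the residues divisible by a
prime of `P`. -/
structure ND (p : ℕ) (P : Finset ℕ) {m : ℕ} [NeZero m] {R : Type*} [AddCommGroup R]
    (c : ZMod m → R) : Prop where
  neg : ∀ a, c (-a) = - c a
  dist : ∀ q, q.Prime → q ≠ p → q ∣ m → ∀ a, ∑ x ∈ cos q a, c x = c ((q : ZMod m) * a)
  supp : ∀ q ∈ P, ∀ a : ZMod m, q ∣ a.val → c a = 0

lemma ND.mono {p : ℕ} {P P' : Finset ℕ} (h : P' ⊆ P) {m : ℕ} [NeZero m] {R : Type*}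
    [AddCommGroup R] {c : ZMod m → R} (hc : ND p P c) : ND p P' c :=
  ⟨hc.neg, hc.dist, fun q hq => hc.supp q (h hq)⟩

section dvd

variable {m : ℕ} [NeZero m]

/-- divisibility of the representative is invariant -/
lemma dvd_val_iff {q : ℕ} (hq : q ∣ m) (a : ZMod m) :
    q ∣ a.val ↔ ZMod.castHom hq (ZMod q) a = 0 := by
  rw [← ZMod.natCast_eq_zero_iff]
  rw [ZMod.castHom_apply, ZMod.natCast_val]

lemma dvd_val_neg {q : ℕ} (hq : q ∣ m) (a : ZMod m) : q ∣ (-a).val ↔ q ∣ a.val := by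
  rw [dvd_val_iff hq, dvd_val_iff hq, map_neg, neg_eq_zero]

lemma dvd_val_mul {q : ℕ} (hq : q ∣ m) (n : ℕ) {a : ZMod m} (h : q ∣ a.val) :
    q ∣ ((n : ZMod m) * a).val := by
  rw [dvd_val_iff hq] at h ⊢
  rw [map_mul, h, mul_zero]

lemma dvd_val_self_mul {q : ℕ} (hq : q ∣ m) (a : ZMod m) : q ∣ ((q : ZMod m) * a).val := by
  rw [dvd_val_iff hq, map_mul, map_natCast, ZMod.natCast_self, zero_mul]

lemma dvd_val_mul_iff {q n : ℕ} (hq : q ∣ m) (hn : Nat.Coprime n q) (a : ZMod m) :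
    q ∣ ((n : ZMod m) * a).val ↔ q ∣ a.val := by
  refine ⟨fun h => ?_, dvd_val_mul hq n⟩
  rw [dvd_val_iff hq] at h ⊢
  rw [map_mul, map_natCast] at h
  have hu : IsUnit ((n : ℕ) : ZMod q) := (ZMod.isUnit_iff_coprime n q).mpr hn
  exact (hu.mul_right_eq_zero).mp h

/-- elements of a coset for a prime have the same divisibility by another prime -/
lemma dvd_val_cos {q r : ℕ} (hq : q ∣ m) (hr : Nat.Coprime r q) {a x : ZMod m} (hx : x ∈ cos r a) :
    q ∣ x.val ↔ q ∣ a.val := by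
  rw [mem_cos] at hx
  rw [← dvd_val_mul_iff hq hr, hx, dvd_val_mul_iff hq hr]

lemma cos_eq_of_mem {q : ℕ} {a x : ZMod m} (h : x ∈ cos q a) : cos q x = cos q a := by
  ext y
  rw [mem_cos, mem_cos, mem_cos.mp h]

lemma self_mem_cos {q : ℕ} (a : ZMod m) : a ∈ cos q a := mem_cos.mpr rfl

lemma eq_of_coprime {n k : ℕ} (h : Nat.Coprime n k) {x y : ZMod m}
    (h1 : (n : ZMod m) * x = n * y) (h2 : (k : ZMod m) * x = k * y) : x = y := by
  have h3 : (1 : ℤ) = n * Nat.gcdA n k + k * Nat.gcdB n k := by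
    rw [← Nat.gcd_eq_gcd_ab, h]; rfl
  have h4 : (1 : ZMod m) = (n : ZMod m) * ((Nat.gcdA n k : ℤ) : ZMod m) +
      (k : ZMod m) * ((Nat.gcdB n k : ℤ) : ZMod m) := by
    have := congrArg (fun z : ℤ => (z : ZMod m)) h3
    push_cast at this
    exact this
  calc x = 1 * x := (one_mul x).symm
    _ = ((Nat.gcdA n k : ℤ) : ZMod m) * (n * x) + ((Nat.gcdB n k : ℤ) : ZMod m) * (k * x) := by
        rw [h4]; ring
    _ = ((Nat.gcdA n k : ℤ) : ZMod m) * (n * y) + ((Nat.gcdB n k : ℤ) : ZMod m) * (k * y) := by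
        rw [h1, h2]
    _ = 1 * y := by rw [h4]; ring
    _ = y := one_mul y

/-- reindexing by multiplication by a number prime to `m` -/
lemma sum_cos_mul {R : Type*} [AddCommMonoid R] {q n : ℕ} (hn : Nat.Coprime n q)
    (F : ZMod m → R) (a : ZMod m) :
    ∑ x ∈ cos q a, F ((n : ZMod m) * x) = ∑ y ∈ cos q ((n : ZMod m) * a), F y := by
  obtain ⟨k, hk⟩ : ∃ k : ℤ, ∃ j : ℤ, k * n + j * q = 1 := by
    refine ⟨Nat.gcdA n q, Nat.gcdB n q, ?_⟩
    have : (1 : ℤ) = n * Nat.gcdA n q + q * Nat.gcdB n q := by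
      rw [← Nat.gcd_eq_gcd_ab, hn]; rfl
    linarith
  obtain ⟨j, hj⟩ := hk
  have hj' : (k : ZMod m) * n + (j : ZMod m) * q = 1 := by
    have := congrArg (fun z : ℤ => (z : ZMod m)) hj
    push_cast at this
    exact this
  refine sum_bij (fun x _ => (n : ZMod m) * x) ?_ ?_ ?_ ?_
  · intro x hx
    rw [mem_cos] at hx ⊢
    linear_combination (n : ZMod m) * hx
  · intro x hx y hy h
    rw [mem_cos] at hx hy
    exact eq_of_coprime hn h (hx.trans hy.symm)
  · intro y hy
    rw [mem_cos] at hy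
    refine ⟨(k : ZMod m) * y + (j : ZMod m) * (q * a), ?_, ?_⟩
    · rw [mem_cos]
      linear_combination (k : ZMod m) * hy + (q : ZMod m) * a * hj'
    · change (n : ZMod m) * ((k : ZMod m) * y + (j : ZMod m) * (q * a)) = y
      linear_combination y * hj' - (j : ZMod m) * hy
  · intro x _; rfl

end dvd

section level

variable {m m' l : ℕ} [NeZero m] [NeZero m']

/-- division by `l` -/
def dv (l : ℕ) {m m' : ℕ} (a : ZMod m) : ZMod m' := ((a.val / l : ℕ) : ZMod m')

lemma iota_dv (h : l * m' = m) {a : ZMod m} (ha : l ∣ a.val) :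
    (iota l (dv l a : ZMod m') : ZMod m) = a := by
  unfold dv
  rw [iota_natCast h, Nat.mul_div_cancel' ha, ZMod.natCast_zmod_val]

lemma iota_inj (h : l * m' = m) : Function.Injective (iota l : ZMod m' → ZMod m) := by
  intro b b' hb
  have h1 := iota_add h b (-b')
  rw [iota_neg h, hb, add_neg_cancel] at h1
  have h2 := iota_eq_zero h h1
  exact add_neg_eq_zero.mp h2

lemma dvd_val_iota (h : l * m' = m) (b : ZMod m') : l ∣ (iota l b : ZMod m).val := by
  have hl : 0 < l := Nat.pos_of_ne_zero (by rintro rfl; rw [zero_mul] at h; exact NeZero.ne m h.symm)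
  have hlt : l * b.val < m := by
    rw [← h]; exact Nat.mul_lt_mul_of_pos_left (ZMod.val_lt b) hl
  unfold iota
  rw [ZMod.val_natCast, Nat.mod_eq_of_lt hlt]
  exact dvd_mul_right _ _

lemma dv_iota (h : l * m' = m) (b : ZMod m') : (dv l (iota l b : ZMod m) : ZMod m') = b :=
  iota_inj h (iota_dv h (dvd_val_iota h b))

/-- reduction -/
def pr (h : l * m' = m) : ZMod m →+* ZMod m' := ZMod.castHom (Dvd.intro_left l h) (ZMod m')

lemma iota_pr (h : l * m' = m) (a : ZMod m) : (iota l (pr h a) : ZMod m) = (l : ZMod m) * a := by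
  have h1 : pr h a = ((a.val : ℕ) : ZMod m') := by
    unfold pr
    rw [ZMod.castHom_apply, ZMod.natCast_val]
  rw [h1, iota_natCast h]
  push_cast
  rw [ZMod.natCast_zmod_val]

lemma pr_iota (h : l * m' = m) (b : ZMod m') : pr h (iota l b) = (l : ZMod m') * b := by
  apply iota_inj h
  rw [iota_pr h, iota_natMul h]

lemma pr_eq_iff (h : l * m' = m) (a x : ZMod m) : pr h x = pr h a ↔ x ∈ cos l a := by
  rw [mem_cos, ← iota_pr h, ← iota_pr h]
  exact (iota_inj h).eq_iff.symm

lemma dvd_iota_iff {q : ℕ} (h : l * m' = m) (hq : q ∣ m') (hql : Nat.Coprime l q) (b : ZMod m') :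
    q ∣ (iota l b : ZMod m).val ↔ q ∣ b.val := by
  have hl : 0 < l := Nat.pos_of_ne_zero (by rintro rfl; rw [zero_mul] at h; exact NeZero.ne m h.symm)
  have hlt : l * b.val < m := by
    rw [← h]; exact Nat.mul_lt_mul_of_pos_left (ZMod.val_lt b) hl
  unfold iota
  rw [ZMod.val_natCast, Nat.mod_eq_of_lt hlt]
  exact hql.symm.dvd_mul_left

lemma dvd_pr_iff {q : ℕ} (h : l * m' = m) (hq : q ∣ m') (a : ZMod m) :
    q ∣ (pr h a).val ↔ q ∣ a.val := by
  have hqm : q ∣ m := hq.trans (Dvd.intro_left l h)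
  rw [dvd_val_iff hq, dvd_val_iff hqm]
  unfold pr
  have : (ZMod.castHom hq (ZMod q)).comp (ZMod.castHom (Dvd.intro_left l h) (ZMod m')) =
      ZMod.castHom hqm (ZMod q) := RingHom.ext_zmod _ _
  rw [← this]
  rfl

/-- sums over cosets and the embedding, for another prime -/
lemma sum_cos_iota {R : Type*} [AddCommMonoid R] {q : ℕ} (h : l * m' = m) (hql : Nat.Coprime q l)
    (F : ZMod m → R) (b : ZMod m') :
    ∑ x ∈ cos q (iota l b : ZMod m), F x = ∑ y ∈ cos q b, F (iota l y) := by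
  have hlm : l ∣ m := Dvd.intro _ h
  symm
  refine sum_bij (fun y _ => (iota l y : ZMod m)) ?_ ?_ ?_ ?_
  · intro y hy
    rw [mem_cos] at hy ⊢
    rw [← iota_natMul h, hy, iota_natMul h]
  · intro y _ y' _ hyy
    exact iota_inj h hyy
  · intro x hx
    have hx2 := (dvd_val_cos hlm hql hx).mpr (dvd_val_iota h b)
    refine ⟨dv l x, ?_, iota_dv h hx2⟩
    rw [mem_cos] at hx ⊢
    apply iota_inj h
    rw [iota_natMul h, iota_natMul h, iota_dv h hx2, hx]
  · intro y _; rfl

/-- sums over cosets and the embedding, for the same prime -/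
lemma sum_cos_iota_self {R : Type*} [AddCommMonoid R] (h : l * m' = m) (hl : l ∣ m')
    (F : ZMod m → R) (b : ZMod m') :
    ∑ x ∈ cos l (iota l b : ZMod m), F x = ∑ y ∈ cos l b, F (iota l y) := by
  have hlm : l ∣ m := Dvd.intro _ h
  symm
  refine sum_bij (fun y _ => (iota l y : ZMod m)) ?_ ?_ ?_ ?_
  · intro y hy
    rw [mem_cos] at hy ⊢
    rw [← iota_natMul h, hy, iota_natMul h]
  · intro y _ y' _ hyy
    exact iota_inj h hyy
  · intro x hx
    have hx1 := (pr_eq_iff h (iota l b) x).mpr hx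
    have hx2 : l ∣ x.val := by
      rw [← dvd_pr_iff h hl, hx1, dvd_pr_iff h hl]
      exact dvd_val_iota h b
    refine ⟨dv l x, ?_, iota_dv h hx2⟩
    rw [mem_cos] at hx ⊢
    apply iota_inj h
    rw [iota_natMul h, iota_natMul h, iota_dv h hx2, hx]
  · intro y _; rfl

/-- sums over cosets and the reduction, for another prime -/
lemma sum_cos_pr {R : Type*} [AddCommMonoid R] {q : ℕ} (h : l * m' = m) (hql : Nat.Coprime q l)
    (F : ZMod m' → R) (a : ZMod m) :
    ∑ x ∈ cos q a, F (pr h x) = ∑ y ∈ cos q (pr h a), F y := by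
  obtain ⟨k, j, hj⟩ : ∃ k : ℤ, ∃ j : ℤ, k * q + j * l = 1 := by
    refine ⟨Nat.gcdA q l, Nat.gcdB q l, ?_⟩
    have : (1 : ℤ) = q * Nat.gcdA q l + l * Nat.gcdB q l := by
      rw [← Nat.gcd_eq_gcd_ab, hql]; rfl
    linarith
  have hj' : (k : ZMod m') * q + (j : ZMod m') * l = 1 := by
    have := congrArg (fun z : ℤ => (z : ZMod m')) hj
    push_cast at this
    exact this
  refine sum_bij (fun x _ => pr h x) ?_ ?_ ?_ ?_
  · intro x hx
    rw [mem_cos] at hx ⊢
    have := congrArg (pr h) hx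
    rwa [map_mul, map_mul, map_natCast] at this
  · intro x hx y hy hxy
    rw [mem_cos] at hx hy
    have h1 := (pr_eq_iff h y x).mp hxy
    rw [mem_cos] at h1
    exact eq_of_coprime hql (hx.trans hy.symm) h1
  · intro y hy
    rw [mem_cos] at hy
    refine ⟨a + (j : ZMod m) * iota l (y - pr h a), ?_, ?_⟩
    · rw [mem_cos]
      have h1 : (q : ZMod m) * iota l (y - pr h a) = 0 := by
        rw [← iota_natMul h, mul_sub, hy, sub_self, iota_zero]
      linear_combination (j : ZMod m) * h1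
    · change pr h (a + (j : ZMod m) * iota l (y - pr h a)) = y
      rw [map_add, map_mul, pr_iota, map_intCast]
      linear_combination (y - pr h a) * hj' - (k : ZMod m') * hy
  · intro x _; rfl

lemma ND.comp_iota {p : ℕ} {P : Finset ℕ} (h : l * m' = m) (hP : ∀ q ∈ P, q.Prime ∧ q ∣ m')
    (hl : l.Prime) (hlP : l ∉ P)
    {R : Type*} [AddCommGroup R] {c : ZMod m → R} (hc : ND p P c) :
    ND p P (fun b : ZMod m' => c (iota l b)) where
  neg := fun a => by rw [iota_neg h, hc.neg]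
  dist := fun q hq hqp hqm a => by
    rw [iota_natMul h, ← hc.dist q hq hqp (hqm.trans (Dvd.intro_left l h))]
    by_cases hql : q = l
    · subst hql
      rw [sum_cos_iota_self h hqm]
    · rw [sum_cos_iota h ((Nat.coprime_primes hq hl).mpr hql)]
  supp := fun q hq a ha => by
    apply hc.supp q hq
    have hne : l ≠ q := fun e => hlP (e ▸ hq)
    rw [dvd_iota_iff h (hP q hq).2 ((Nat.coprime_primes hl (hP q hq).1).mpr hne)]
    exact ha

lemma ND.comp_mul {p n : ℕ} {P : Finset ℕ} (hP : ∀ q ∈ P, q ∣ m)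
    (hn : ∀ q, q.Prime → q ≠ p → q ∣ m → Nat.Coprime n q)
    {R : Type*} [AddCommGroup R] {c : ZMod m → R} (hc : ND p P c) :
    ND p P (fun a : ZMod m => c ((n : ZMod m) * a)) where
  neg := fun a => by rw [mul_neg, hc.neg]
  dist := fun q hq hqp hqm a => by
    rw [sum_cos_mul (hn q hq hqp hqm) c a, hc.dist q hq hqp hqm]
    congr 1; ring
  supp := fun q hq a ha => hc.supp q hq _ (dvd_val_mul (hP q hq) n ha)

end level

end Pool.Agent.N997.P
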