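import Pool.Agent.N997.P.Ind

/-!
Multiplicity one for the units acting on the distributions, and the invariance of relations.
-/

namespace Pool.Agent.N997.P

open Finset Pool.Agent.H916R2

lemma ND.lin {m p : ℕ} [NeZero m] {P : Finset ℕ} {w1 w2 : ZMod m → ℂ} (h1 : ND p P w1)
    (h2 : ND p P w2) (α β : ℂ) : ND p P (fun a => α * w1 a + β * w2 a) where
  neg := fun a => by rw [h1.neg, h2.neg]; ring
  dist := fun q hq hqp hqm a => by
    rw [sum_add_distrib, ← mul_sum, ← mul_sum, h1.dist q hq hqp hqm, h2.dist q hq hqp hqm]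
  supp := fun q hq a ha => by rw [h1.supp q hq a ha, h2.supp q hq a ha]; ring

/-- the units congruent to one modulo `m'` act transitively on the new part of a coset -/
lemma exists_unit_mul {m m' l : ℕ} [NeZero m] [NeZero m'] (h : l * m' = m) (hl : l.Prime)
    {a x : ZMod m} (hx : x ∈ cos l a) (ha : ¬ l ∣ a.val) (hxl : ¬ l ∣ x.val) :
    ∃ k : (ZMod m)ˣ, k ∈ Kn m l ∧ (k : ZMod m) * a = x := by
  have hlm : l ∣ m := Dvd.intro _ h
  have hm' : m / l = m' := by rw [← h]; exact Nat.mul_div_cancel_left _ hl.pos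
  obtain ⟨i, _, hi⟩ := exists_of_mul_eq_zero hlm (z := x - a) (by
    rw [mul_sub, mem_cos.mp hx, sub_self])
  rw [hm'] at hi
  have hlm0 : (l : ZMod m) * (m' : ZMod m) = 0 := by
    have : ((l * m' : ℕ) : ZMod m) = 0 := by rw [h]; simp
    simpa using this
  obtain ⟨j, hj⟩ : ∃ j : ℕ, j * a.val ≡ i [MOD l] := by
    have hlf : NeZero l := ⟨hl.ne_zero⟩
    have hcop : Nat.Coprime a.val l := ((hl.coprime_iff_not_dvd).mpr ha).symm
    obtain ⟨u, hu⟩ := (ZMod.isUnit_iff_coprime a.val l).mpr hcop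
    refine ⟨(((u⁻¹ : (ZMod l)ˣ) : ZMod l) * (i : ZMod l)).val, ?_⟩
    rw [← ZMod.natCast_eq_natCast_iff]
    push_cast
    rw [ZMod.natCast_zmod_val, ← hu, mul_comm, ← mul_assoc]
    simp
  have hka : ((1 + j * m' : ℕ) : ZMod m) * a = x := by
    have h1 : ((j * a.val * m' : ℕ) : ZMod m) = ((i * m' : ℕ) : ZMod m) := by
      rw [ZMod.natCast_eq_natCast_iff]
      have := Nat.ModEq.mul_right' m' hj
      rwa [h] at this
    have h2 : x = a + (i : ZMod m) * (m' : ZMod m) := by rw [← hi]; ring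
    rw [h2]
    have h3 : (i : ZMod m) * (m' : ZMod m) = (j : ZMod m) * a * m' := by
      push_cast at h1
      rw [ZMod.natCast_zmod_val] at h1
      rw [h1]
    rw [h3]
    push_cast; ring
  have hunit : IsUnit ((1 + j * m' : ℕ) : ZMod m) := by
    rw [ZMod.isUnit_iff_coprime]
    apply Nat.coprime_of_dvd
    intro q hq hq1 hqm
    rw [← h] at hqm
    rcases (Nat.Prime.dvd_mul hq).mp hqm with h1 | h1
    · have hql : q = l := (Nat.prime_dvd_prime_iff_eq hq hl).mp h1
      subst hql
      apply hxl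
      rw [← hka, dvd_val_iff hlm, map_mul, map_natCast, (ZMod.natCast_eq_zero_iff _ _).mpr hq1,
        zero_mul]
    · have h2 : q ∣ 1 := (Nat.dvd_add_left (h1.mul_left j)).mp hq1
      exact hq.one_lt.ne' (Nat.dvd_one.mp h2)
  obtain ⟨k, hk⟩ := hunit
  refine ⟨k, ?_, by rw [hk, hka]⟩
  rw [mem_Kn, hk]
  push_cast
  linear_combination (j : ZMod m) * hlm0

/-- elements of `Kn m l` fix the `l`-old residues -/
lemma Kn_iota {m m' l : ℕ} [NeZero m] {k : (ZMod m)ˣ} (hk : k ∈ Kn m l)
    (b : ZMod m') : (k : ZMod m) * iota l b = iota l b := by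
  unfold iota
  push_cast
  rw [← mul_assoc, mul_comm (k : ZMod m) l, mem_Kn.mp hk]

/-- Multiplicity one. -/
theorem mult_one {p : ℕ} : ∀ (m : ℕ) [NeZero m] (P : Finset ℕ), p ∈ P →
    (∀ q ∈ P, q.Prime ∧ q ∣ m) → ∀ w1 w2 : ZMod m → ℂ, ND p P w1 → ND p P w2 →
    ∀ s : (ZMod m)ˣ → ℂ, (∀ u : (ZMod m)ˣ, ∀ a, w1 ((u : ZMod m) * a) = s u * w1 a) →
    (∀ u : (ZMod m)ˣ, ∀ a, w2 ((u : ZMod m) * a) = s u * w2 a) →
    ∃ α β : ℂ, (α ≠ 0 ∨ β ≠ 0) ∧ ∀ a, α * w1 a + β * w2 a = 0 := by
  apply ND_ind (p := p) (motive := fun m _ P => ∀ w1 w2 : ZMod m → ℂ, ND p P w1 → ND p P w2 →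
    ∀ s : (ZMod m)ˣ → ℂ, (∀ u : (ZMod m)ˣ, ∀ a, w1 ((u : ZMod m) * a) = s u * w1 a) →
    (∀ u : (ZMod m)ˣ, ∀ a, w2 ((u : ZMod m) * a) = s u * w2 a) →
    ∃ α β : ℂ, (α ≠ 0 ∨ β ≠ 0) ∧ ∀ a, α * w1 a + β * w2 a = 0)
  · intro m _ P _ _ hall w1 w2 h1 h2 s hs1 hs2
    by_cases h : w1 1 = 0
    · refine ⟨1, 0, Or.inl one_ne_zero, ?_⟩
      intro a
      by_cases ha : IsUnit a
      · obtain ⟨u, rfl⟩ := ha
        have := hs1 u 1
        rw [mul_one, h, mul_zero] at this
        rw [this]; ring
      · rw [h1.unit_supp hall a ha]; ring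
    · refine ⟨- w2 1, w1 1, Or.inr h, ?_⟩
      intro a
      by_cases ha : IsUnit a
      · obtain ⟨u, rfl⟩ := ha
        have e1 := hs1 u 1
        have e2 := hs2 u 1
        rw [mul_one] at e1 e2
        rw [e1, e2]; ring
      · rw [h1.unit_supp hall a ha, h2.unit_supp hall a ha]; ring
  · intro m m' l _ _ P hpP hP hl hlP h ih1 ih2 w1 w2 h1 h2 s hs1 hs2
    have hlp : l ≠ p := fun e => hlP (e ▸ hpP)
    have hlm : l ∣ m := Dvd.intro _ h
    have hlmm : l ∣ m ∧ m' ∣ m := ⟨hlm, Dvd.intro_left l h⟩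
    by_cases hex : ∃ k ∈ Kn m l, s k ≠ 1
    · obtain ⟨k, hk, hsk⟩ := hex
      have hvan : ∀ w : ZMod m → ℂ, (∀ u : (ZMod m)ˣ, ∀ a, w ((u : ZMod m) * a) = s u * w a) →
          ∀ a : ZMod m, l ∣ a.val → w a = 0 := by
        intro w hw a ha
        have h3 := hw k a
        have h4 : (k : ZMod m) * a = a := by
          rw [← iota_dv h ha, Kn_iota hk]
        rw [h4] at h3
        have h5 : (s k - 1) * w a = 0 := by linear_combination -h3
        rcases mul_eq_zero.mp h5 with h6 | h6
        · exact absurd (sub_eq_zero.mp h6) hsk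
        · exact h6
      have hnew : ∀ w : ZMod m → ℂ, ND p P w →
          (∀ u : (ZMod m)ˣ, ∀ a, w ((u : ZMod m) * a) = s u * w a) → ND p (insert l P) w := by
        intro w hw hsw
        refine ⟨hw.neg, hw.dist, ?_⟩
        intro q hq a ha
        rcases mem_insert.mp hq with rfl | hq
        · exact hvan w hsw a ha
        · exact hw.supp q hq a ha
      exact ih1 w1 w2 (hnew w1 h1 hs1) (hnew w2 h2 hs2) s hs1 hs2
    · push Not at hex
      have hlift : ∀ u' : (ZMod m')ˣ, ∃ u : (ZMod m)ˣ, ZMod.unitsMap hlmm.2 u = u' := fun u' =>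
        ZMod.unitsMap_surjective hlmm.2 u'
      choose lf hlf using hlift
      obtain ⟨α, β, hne, hab⟩ := ih2 (fun b => w1 (iota l b)) (fun b => w2 (iota l b))
        (h1.comp_iota h hP hl hlP) (h2.comp_iota h hP hl hlP) (fun u' => s (lf u'))
        (by
          intro u' b
          have e := unit_iota h (lf u') b
          rw [hlf u'] at e
          rw [← e, hs1])
        (by
          intro u' b
          have e := unit_iota h (lf u') b
          rw [hlf u'] at e
          rw [← e, hs2])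
      refine ⟨α, β, hne, ?_⟩
      have hW := h1.lin h2 α β
      set W : ZMod m → ℂ := fun a => α * w1 a + β * w2 a with hWdef
      intro a
      by_cases ha : l ∣ a.val
      · rw [← iota_dv h ha]; exact hab _
      · have h3 := hW.dist l hl hlp hlm a
        have h4 : W ((l : ZMod m) * a) = 0 := by
          rw [← iota_pr h]; exact hab _
        rw [h4] at h3
        have h5 : ∀ x ∈ cos l a, W x = if l ∣ x.val then 0 else W a := by
          intro x hx
          by_cases hxl : l ∣ x.val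
          · rw [if_pos hxl, ← iota_dv h hxl]; exact hab _
          · rw [if_neg hxl]
            obtain ⟨k, hk, hka⟩ := exists_unit_mul h hl hx ha hxl
            simp only [hWdef]
            rw [← hka, hs1, hs2, hex k hk]; ring
        rw [sum_congr rfl h5, Finset.sum_ite, sum_const_zero, zero_add, sum_const, nsmul_eq_mul] at h3
        rcases mul_eq_zero.mp h3 with h6 | h6
        · exfalso
          have h7 : ((cos l a).filter (fun x => ¬ l ∣ x.val)).card = 0 := by exact_mod_cast h6
          rw [card_eq_zero] at h7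
          have h8 : a ∈ (cos l a).filter (fun x => ¬ l ∣ x.val) :=
            mem_filter.mpr ⟨self_mem_cos a, ha⟩
          rw [h7] at h8
          exact absurd h8 (notMem_empty _)
        · exact h6

/-- A distribution whose sums over the cosets of `Kn m p` vanish kills the relations. -/
theorem rel_kill {m p : ℕ} [NeZero m] (hp : p.Prime) (hpm : p ∣ m) {x : ZMod m → ℤ} (hx : Rel x)
    {c : ZMod m → ℂ} (hc : ND p {p} c)
    (hsum : ∀ a, ∑ k ∈ (univ : Finset (ZMod m)ˣ).filter (fun k : (ZMod m)ˣ => (p : ZMod m) * (k : ZMod m) = p),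
      c ((k : ZMod m) * a) = 0) :
    ∑ a, (x a : ℂ) * c a = 0 := by
  classical
  obtain ⟨d, hd⟩ := hpm
  have hd0 : NeZero d := ⟨by rintro rfl; rw [mul_zero] at hd; exact NeZero.ne m hd⟩
  have hpm : p ∣ m := Dvd.intro d hd.symm
  have hP : ∀ q ∈ ({p} : Finset ℕ), q.Prime ∧ q ∣ m := by
    intro q hq
    rw [mem_singleton] at hq
    rw [hq]; exact ⟨hp, hpm⟩
  set H : Finset (ZMod m)ˣ := univ.filter (fun k : (ZMod m)ˣ => (p : ZMod m) * (k : ZMod m) = p) with hH
  -- components
  let cχ : DirichletCharacter ℂ m → ZMod m → ℂ := fun χ a =>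
    ∑ u : (ZMod m)ˣ, χ (u : ZMod m) * c ((u : ZMod m) * a)
  have hunit : ∀ (u : (ZMod m)ˣ), ND p {p} (fun a => c ((u : ZMod m) * a)) := by
    intro u
    have h1 : ((((u : ZMod m).val : ℕ)) : ZMod m) = (u : ZMod m) := ZMod.natCast_zmod_val _
    have h2 := hc.comp_mul (n := (u : ZMod m).val) (fun q hq => (hP q hq).2) (by
      intro q hq _ hqm
      have h3 : IsUnit (((u : ZMod m).val : ℕ) : ZMod m) := by rw [h1]; exact u.isUnit
      rw [ZMod.isUnit_iff_coprime] at h3
      exact Nat.Coprime.coprime_dvd_right hqm h3)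
    simpa only [h1] using h2
  have hND : ∀ χ, ND p {p} (cχ χ) := by
    intro χ
    refine ⟨?_, ?_, ?_⟩
    · intro a
      simp only [cχ]
      rw [← sum_neg_distrib]
      refine sum_congr rfl fun u _ => ?_
      rw [mul_neg, hc.neg]; ring
    · intro q hq hqp hqm a
      simp only [cχ]
      rw [sum_comm]
      refine sum_congr rfl fun u _ => ?_
      rw [← mul_sum]
      congr 1
      exact (hunit u).dist q hq hqp hqm a
    · intro q hq a ha
      simp only [cχ]
      apply sum_eq_zero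
      intro u _
      rw [(hunit u).supp q hq a ha, mul_zero]
  have heig : ∀ χ (v : (ZMod m)ˣ) (a : ZMod m), cχ χ ((v : ZMod m) * a) = (χ (v : ZMod m))⁻¹ * cχ χ a := by
    intro χ v a
    simp only [cχ]
    rw [mul_sum, ← Equiv.sum_comp (Equiv.mulRight v⁻¹)]
    refine sum_congr rfl fun u _ => ?_
    simp only [Equiv.coe_mulRight, Units.val_mul, map_mul]
    have h1 : (χ (v : ZMod m)) * χ ((v⁻¹ : (ZMod m)ˣ) : ZMod m) = 1 := by
      rw [← map_mul]; simp
    have h2 : χ ((v⁻¹ : (ZMod m)ˣ) : ZMod m) = (χ (v : ZMod m))⁻¹ := by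
      exact (inv_eq_of_mul_eq_one_right h1).symm
    rw [h2]
    have h3 : (u : ZMod m) * ((v⁻¹ : (ZMod m)ˣ) : ZMod m) * ((v : ZMod m) * a) = (u : ZMod m) * a := by
      have : ((v⁻¹ : (ZMod m)ˣ) : ZMod m) * (v : ZMod m) = 1 := by simp
      linear_combination (u : ZMod m) * a * this
    rw [h3]; ring
  -- inversion
  have hinv : ∀ a, ∑ χ : DirichletCharacter ℂ m, cχ χ a = (Nat.totient m : ℂ) * c a := by
    intro a
    simp only [cχ]
    rw [sum_comm]
    have h1 : ∀ u : (ZMod m)ˣ, ∑ χ : DirichletCharacter ℂ m, χ (u : ZMod m) * c ((u : ZMod m) * a) =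
        if u = 1 then (Nat.totient m : ℂ) * c a else 0 := by
      intro u
      rw [← sum_mul, DirichletCharacter.sum_characters_eq]
      by_cases hu : u = 1
      · subst hu
        simp
      · rw [if_neg hu, if_neg (fun h => hu (Units.ext (by simpa using h))), zero_mul]
    rw [sum_congr rfl fun u _ => h1 u]
    simp
  have hcard : (Nat.totient m : ℂ) ≠ 0 := by
    have := Nat.totient_pos.mpr (NeZero.pos m)
    exact_mod_cast this.ne'
  suffices hall : ∀ χ : DirichletCharacter ℂ m, ∑ a, (x a : ℂ) * cχ χ a = 0 by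
    have h1 : (Nat.totient m : ℂ) * ∑ a, (x a : ℂ) * c a = 0 := by
      rw [mul_sum]
      have h2 : ∀ a, (Nat.totient m : ℂ) * ((x a : ℂ) * c a) =
          ∑ χ : DirichletCharacter ℂ m, (x a : ℂ) * cχ χ a := by
        intro a
        rw [← mul_sum, hinv]; ring
      rw [sum_congr rfl fun a _ => h2 a, sum_comm]
      exact sum_eq_zero fun χ _ => hall χ
    exact (mul_eq_zero.mp h1).resolve_left hcard
  intro χ
  -- trivial on H
  by_cases hχH : ∀ k ∈ H, χ (k : ZMod m) = 1
  · have hzero : ∀ a, cχ χ a = 0 := by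
      intro a
      have h1 : ∑ k ∈ H, cχ χ ((k : ZMod m) * a) = (H.card : ℂ) * cχ χ a := by
        rw [sum_congr rfl (g := fun _ => cχ χ a) (fun k hk => by
          rw [heig, hχH k hk, inv_one, one_mul]), sum_const, nsmul_eq_mul]
      have h2 : ∑ k ∈ H, cχ χ ((k : ZMod m) * a) = 0 := by
        simp only [cχ]
        rw [sum_comm]
        apply sum_eq_zero
        intro u _
        rw [← mul_sum]
        have h3 := hsum ((u : ZMod m) * a)
        have h4 : ∑ k ∈ H, c ((u : ZMod m) * ((k : ZMod m) * a)) = 0 := by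
          rw [← h3]
          refine sum_congr rfl fun k _ => ?_
          congr 1; ring
        rw [h4, mul_zero]
      rw [h2] at h1
      have h3 : (H.card : ℂ) ≠ 0 := by
        have : (1 : (ZMod m)ˣ) ∈ H := by rw [hH, mem_filter]; simp
        have := card_pos.mpr ⟨1, this⟩
        exact_mod_cast this.ne'
      exact (mul_eq_zero.mp h1.symm).resolve_left h3
    apply sum_eq_zero
    intro a _
    rw [hzero a, mul_zero]
  push Not at hχH
  obtain ⟨k, hkH, hχk⟩ := hχH
  rcases χ.even_or_odd with heven | hodd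
  · have hzero : ∀ a, cχ χ a = 0 := by
      intro a
      have h1 := heig χ (-1) a
      rw [Units.val_neg, Units.val_one, neg_one_mul, (hND χ).neg] at h1
      have h2 : χ (-1) = 1 := heven
      rw [h2, inv_one, one_mul] at h1
      have h3 : (2 : ℂ) * cχ χ a = 0 := by linear_combination -h1
      exact (mul_eq_zero.mp h3).resolve_left two_ne_zero
    apply sum_eq_zero
    intro a _
    rw [hzero a, mul_zero]
  · -- the Stickelberger distribution
    have hk : k ∈ Kn m p := (mem_filter.mp hkH).2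
    have hSSold : ∀ a : ZMod m, p ∣ a.val → SS χ a = 0 := by
      intro a ha
      have h1 := SS_unit χ k a
      rw [← iota_dv hd.symm ha, Kn_iota hk] at h1
      have h2 : (1 - (χ (k : ZMod m))⁻¹) * SS χ (iota p (dv p a : ZMod d)) = 0 := by
        linear_combination h1
      rw [← iota_dv hd.symm ha]
      rcases mul_eq_zero.mp h2 with h3 | h3
      · exfalso
        apply hχk
        have : (χ (k : ZMod m))⁻¹ = 1 := (sub_eq_zero.mp h3).symm
        exact inv_eq_one.mp this
      · exact h3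
    have hSS : ND p {p} (SS χ) := by
      refine ⟨SS_neg χ, ?_, ?_⟩
      · intro q hq _ hqm a
        rw [← SS_dist χ (Nat.mul_div_cancel' hqm), ← sum_fib hqm]
        apply sum_congr _ fun _ _ => rfl
        ext y; rw [mem_fib, mem_cos]; simp
      · intro q hq a ha
        rw [mem_singleton] at hq
        rw [hq] at ha
        exact hSSold a ha
    obtain ⟨α, β, hne, hab⟩ := mult_one m {p} (mem_singleton_self p) hP (cχ χ) (SS χ) (hND χ) hSS
      (fun u => (χ (u : ZMod m))⁻¹) (heig χ) (SS_unit χ)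
    have hα : α ≠ 0 := by
      rintro rfl
      rcases hne with h | h
      · exact h rfl
      · obtain ⟨a, ha⟩ := exists_SS_ne_zero χ hodd
        have := hab a
        rw [zero_mul, zero_add] at this
        rcases mul_eq_zero.mp this with h1 | h1
        · exact h h1
        · exact ha h1
    have hcχ : ∀ a, cχ χ a = -(β / α) * SS χ a := by
      intro a
      have := hab a
      field_simp
      linear_combination this
    have h1 : ∑ a, (x a : ℂ) * cχ χ a = -(β / α) * ∑ a, (x a : ℂ) * SS χ a := by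
      rw [mul_sum]
      refine sum_congr rfl fun a _ => ?_
      rw [hcχ]; ring
    have h2 : ∑ a, (x a : ℂ) * SS χ a = 0 := by
      unfold SS
      have h2 : ∑ a, (x a : ℂ) * ∑ t : (ZMod m)ˣ, χ t * (saw ((t : ZMod m) * a) : ℂ) =
          ∑ t : (ZMod m)ˣ, χ t * ((∑ a, x a * saw ((t : ZMod m) * a) : ℤ) : ℂ) := by
        simp only [mul_sum, Int.cast_sum, Int.cast_mul]
        rw [sum_comm]
        refine sum_congr rfl fun t _ => sum_congr rfl fun a _ => ?_
        ring
      rw [h2]
      apply sum_eq_zero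
      intro t _
      rw [hx t]; simp
    rw [h1, h2, mul_zero]

end Pool.Agent.N997.P
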