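import Pool.Agent.N997.P.Mult
import Pool.Agent.N997.Final

/-!
Removal of large primes from the degree.
-/

namespace Pool.Agent.N997.P

open Finset Pool.Agent.H916R2 Pool.Agent.N997

lemma dist_cos {m : ℕ} [NeZero m] {R : Type*} [AddCommGroup R] {c : ZMod m → R} (hc : OddDist c)
    {q : ℕ} (hq : q.Prime) (hqm : q ∣ m) (a : ZMod m) :
    ∑ x ∈ cos q a, c x = c ((q : ZMod m) * a) := by
  rw [← hc.dist q (m / q) hq (Nat.mul_div_cancel' hqm), ← sum_fib hqm]
  apply sum_congr _ fun _ _ => rfl
  ext y; rw [mem_fib, mem_cos]; simp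

/-- the new part of an odd distribution -/
lemma ND_new {m p : ℕ} [NeZero m] (hp : p.Prime) (hpm : p ∣ m) {R : Type*} [AddCommGroup R]
    {c : ZMod m → R} (hc : OddDist c) : ND p {p} (fun a => if p ∣ a.val then 0 else c a) where
  neg := fun a => by
    by_cases ha : p ∣ a.val
    · rw [if_pos ha, if_pos ((dvd_val_neg hpm a).mpr ha), neg_zero]
    · rw [if_neg ha, if_neg (fun h => ha ((dvd_val_neg hpm a).mp h)), hc.neg]
  dist := fun q hq hqp hqm a => by
    have hcop : Nat.Coprime q p := (Nat.coprime_primes hq hp).mpr hqp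
    by_cases ha : p ∣ a.val
    · rw [if_pos ((dvd_val_mul_iff hpm hcop a).mpr ha)]
      apply sum_eq_zero
      intro x hx
      rw [if_pos ((dvd_val_cos hpm hcop hx).mpr ha)]
    · rw [if_neg (fun h => ha ((dvd_val_mul_iff hpm hcop a).mp h)), ← dist_cos hc hq hqm]
      refine sum_congr rfl fun x hx => ?_
      rw [if_neg (fun h => ha ((dvd_val_cos hpm hcop hx).mp h))]
  supp := fun q hq a ha => by
    rw [mem_singleton] at hq
    rw [hq] at ha
    rw [if_pos ha]

/-- the factor for the prime two, as a natural number -/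
def cN (m : ℕ) : ℕ := if 2 ∣ m then 2 else 1

lemma cN_cast (m : ℕ) : ((cN m : ℕ) : ℝ) = cc m := by
  unfold cN cc; split_ifs <;> simp

theorem new_kill {m p : ℕ} [NeZero m] (hp : p.Prime) (hp2 : p ≠ 2) (hpm : p ∣ m) {x : ZMod m → ℤ}
    (hx : Rel x) {k : ℕ} (hk : ∑ a ∈ univ.filter (fun a : ZMod m => ¬ p ∣ a.val), |x a| ≤ k)
    (hlt : 2 * (k * cN m) + 1 < p) (R : Type) [AddCommGroup R] (c : ZMod m → R)
    (hc : ND p {p} c) : ∑ a, x a • c a = 0 := by
  have hP : ∀ q ∈ ({p} : Finset ℕ), q.Prime ∧ q ∣ m := by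
    intro q hq
    rw [mem_singleton] at hq
    rw [hq]; exact ⟨hp, hpm⟩
  have hsupp : ∀ {R : Type} [AddCommGroup R] {c : ZMod m → R}, ND p {p} c → ∀ a : ZMod m,
      p ∣ a.val → c a = 0 := fun hc a ha => hc.supp p (mem_singleton_self p) a ha
  refine tf hp hp2 m {p} (mem_singleton_self p) hP x ?_ R c hc
  intro c hc
  refine bd hp hp2 m (NeZero.ne m) m {p} (mem_singleton_self p) hP dvd_rfl ?_ x k
    (Nat.cast_nonneg k) ?_ ?_ ?_ c hc
  · rw [Nat.div_self (NeZero.pos m)]
    intro h; exact hp.one_lt.ne' (Nat.dvd_one.mp h)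
  · rw [← cN_cast]
    have : ((2 * (k * cN m) + 1 : ℕ) : ℝ) < p := by exact_mod_cast hlt
    push_cast at this
    linarith
  · intro c hc B hB
    have hB0 : 0 ≤ B := (abs_nonneg _).trans (hB 0)
    calc |∑ a, x a • c a| ≤ ∑ a, |x a • c a| := abs_sum_le_sum_abs _ _
      _ ≤ ∑ a ∈ univ.filter (fun a : ZMod m => ¬ p ∣ a.val), (|x a| : ℝ) * B := by
          rw [Finset.sum_filter]
          apply sum_le_sum
          intro a _
          by_cases ha : p ∣ a.val
          · rw [hsupp hc a ha, if_neg (not_not.mpr ha)]; simp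
          · rw [if_pos ha, zsmul_eq_mul, abs_mul]
            exact mul_le_mul_of_nonneg_left (hB a) (abs_nonneg _)
      _ = (∑ a ∈ univ.filter (fun a : ZMod m => ¬ p ∣ a.val), (|x a| : ℝ)) * B := by
          rw [sum_mul]
      _ ≤ k * B := by
          apply mul_le_mul_of_nonneg_right _ hB0
          exact_mod_cast hk
  · intro c hc n hn hpn
    have hnq : ∀ q, q.Prime → q ∣ m → Nat.Coprime n q := by
      intro q hq hqm
      by_cases hqp : q = p
      · rw [hqp]; exact ((hp.coprime_iff_not_dvd).mpr hpn).symm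
      · have h1 : q ∣ m / p := by
          have h2 : q ∣ p * (m / p) := by
            rw [Nat.mul_div_cancel' hpm]; exact hqm
          exact ((Nat.coprime_primes hq hp).mpr hqp).dvd_of_dvd_mul_left h2
        have h2 := hn.of_dvd h1
        have h3 : Nat.gcd n q = Nat.gcd 1 q := h2.gcd_eq
        rw [Nat.coprime_iff_gcd_eq_one, h3]; simp
    have hnm : IsUnit ((n : ℕ) : ZMod m) := by
      rw [ZMod.isUnit_iff_coprime]
      apply Nat.coprime_of_dvd
      intro q hq h1 h2
      have := hnq q hq h2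
      rw [Nat.coprime_comm, hq.coprime_iff_not_dvd] at this
      exact this h1
    obtain ⟨u, hu⟩ := hnm
    have hpn1 : (p : ZMod m) * (u : ZMod m) = p := by
      rw [hu]
      have h1 : p * n ≡ p * 1 [MOD m] := by
        have := Nat.ModEq.mul_left' p hn
        rwa [Nat.mul_div_cancel' hpm] at this
      have h2 := (ZMod.natCast_eq_natCast_iff _ _ _).mpr h1
      push_cast at h2
      rw [mul_one] at h2
      exact h2
    let c' : ZMod m → ℂ := fun a => ((c ((n : ZMod m) * a) - c a : ℝ) : ℂ)
    have hcn := hc.comp_mul (n := n) (fun q hq => (hP q hq).2) (fun q hq _ hqm => hnq q hq hqm)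
    have hc' : ND p {p} c' := by
      refine ⟨?_, ?_, ?_⟩
      · intro a
        simp only [c']
        rw [mul_neg, hc.neg, hc.neg]; push_cast; ring
      · intro q hq hqp hqm a
        simp only [c']
        rw [← Complex.ofReal_sum, sum_sub_distrib, hc.dist q hq hqp hqm,
          hcn.dist q hq hqp hqm]
      · intro q hq a ha
        simp only [c']
        rw [hcn.supp q hq a ha, hc.supp q hq a ha]; simp
    have h1 := rel_kill hp hpm hx hc' (by
      intro a
      simp only [c']
      rw [← Complex.ofReal_sum, sum_sub_distrib]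
      have h2 := sum_shift (Kn m p) (k := u) hpn1 (fun v : (ZMod m)ˣ => c ((v : ZMod m) * a))
      have h3 : ∑ k ∈ univ.filter (fun k : (ZMod m)ˣ => (p : ZMod m) * (k : ZMod m) = p),
          c ((n : ZMod m) * ((k : ZMod m) * a)) =
          ∑ k ∈ univ.filter (fun k : (ZMod m)ˣ => (p : ZMod m) * (k : ZMod m) = p),
          c ((k : ZMod m) * a) := by
        have e : ∀ k : (ZMod m)ˣ, c ((n : ZMod m) * ((k : ZMod m) * a)) =
            c (((u * k : (ZMod m)ˣ) : ZMod m) * a) := by
          intro k
          rw [Units.val_mul, hu, mul_assoc]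
        have hset : univ.filter (fun k : (ZMod m)ˣ => (p : ZMod m) * (k : ZMod m) = p) =
            @Finset.filter _ (fun k => k ∈ Kn m p) (fun a => Classical.propDecidable _) univ := by
          ext k
          rw [mem_filter, @mem_filter _ _ (fun a => Classical.propDecidable _)]
          exact Iff.rfl
        rw [sum_congr rfl fun k _ => e k, hset]
        exact h2
      rw [h3, sub_self]; simp)
    have h4 : ∑ a, (x a : ℂ) * c' a = ((∑ a, x a • c ((n : ZMod m) * a) - ∑ a, x a • c a : ℝ) : ℂ) := by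
      rw [← sum_sub_distrib, Complex.ofReal_sum]
      refine sum_congr rfl fun a _ => ?_
      simp only [c', zsmul_eq_mul]
      push_cast; ring
    rw [h4] at h1
    have h5 : (∑ a, x a • c ((n : ZMod m) * a) - ∑ a, x a • c a : ℝ) = 0 := by exact_mod_cast h1
    linarith

/-- Large primes can be removed. -/
theorem remove_prime {m p : ℕ} [NeZero m] (hp : p.Prime) (hp2 : p ≠ 2) (hpm : p ∣ m)
    {x : ZMod m → ℤ} (hx : Rel x) {k : ℕ}
    (hk : ∑ a ∈ univ.filter (fun a : ZMod m => ¬ p ∣ a.val), |x a| ≤ k)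
    (hlt : 2 * (k * cN m) + 1 < p) :
    Rel (fun a : ZMod m => if p ∣ a.val then x a else 0) ∧
      ∀ (R : Type) [AddCommGroup R] (c : ZMod m → R), OddDist c →
        ∑ a, x a • c a = ∑ a, (if p ∣ a.val then x a else 0) • c a := by
  have key : ∀ (R : Type) [AddCommGroup R] (c : ZMod m → R), OddDist c →
        ∑ a, x a • c a = ∑ a, (if p ∣ a.val then x a else 0) • c a := by
    intro R _ c hc
    have h1 := new_kill hp hp2 hpm hx hk hlt R _ (ND_new hp hpm hc)
    rw [← sub_eq_zero, ← sum_sub_distrib, ← h1]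
    refine sum_congr rfl fun a _ => ?_
    by_cases ha : p ∣ a.val
    · rw [if_pos ha, if_pos ha, sub_self, smul_zero]
    · rw [if_neg ha, if_neg ha, zero_smul, sub_zero]
  refine ⟨?_, key⟩
  intro t
  have h1 := key ℤ _ (oddDist_saw t)
  simp only [smul_eq_mul] at h1
  rw [← h1]
  exact hx t

/-- Reduction to a degree without large primes. -/
theorem reduce_smooth (k : ℕ) : ∀ (N m : ℕ) [NeZero m] (x : ZMod m → ℤ), Rel x → ∑ a, |x a| ≤ k →
    m ≤ N → ∃ (m' l : ℕ) (_ : NeZero m') (x' : ZMod m' → ℤ), l * m' = m ∧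
      (∀ p, p.Prime → p ∣ m' → p ≤ 2 * (k * cN m) + 2) ∧ Rel x' ∧ ∑ a, |x' a| ≤ k ∧
      ∀ (R : Type) [AddCommGroup R] (c : ZMod m → R), OddDist c →
        ∑ a, x a • c a = ∑ b, x' b • c (iota l b) := by
  intro N
  induction N with
  | zero =>
    intro m _ x _ _ h
    have := NeZero.pos m
    omega
  | succ N ih =>
    intro m _ x hx hk hN
    by_cases hall : ∀ p, p.Prime → p ∣ m → p ≤ 2 * (k * cN m) + 2
    · refine ⟨m, 1, inferInstance, x, one_mul m, hall, hx, hk, ?_⟩
      intro R _ c _
      refine sum_congr rfl fun b _ => ?_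
      congr 2
      unfold iota
      rw [one_mul, ZMod.natCast_zmod_val]
    · push Not at hall
      obtain ⟨p, hp, hpm, hlt⟩ := hall
      have hp2 : p ≠ 2 := by omega
      have hk' : ∑ a ∈ univ.filter (fun a : ZMod m => ¬ p ∣ a.val), |x a| ≤ k :=
        (sum_le_sum_of_subset_of_nonneg (filter_subset _ _) fun a _ _ => abs_nonneg _).trans hk
      obtain ⟨hrel, hid⟩ := remove_prime hp hp2 hpm hx hk' (by omega)
      set x1 : ZMod m → ℤ := fun a => if p ∣ a.val then x a else 0 with hx1
      obtain ⟨d, hd⟩ := hpm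
      have hd0 : NeZero d := ⟨by rintro rfl; rw [mul_zero] at hd; exact NeZero.ne m hd⟩
      have hsupp : ∀ a, x1 a ≠ 0 → p ∣ a.val := by
        intro a ha
        by_contra h
        apply ha
        simp only [hx1]; rw [if_neg h]
      obtain ⟨hr, ht, hs⟩ := descend hp.pos hd.symm x1 hrel hsupp
      have hx1k : ∑ a, |x1 a| ≤ k := by
        refine le_trans (sum_le_sum fun a _ => ?_) hk
        simp only [hx1]
        split_ifs
        · exact le_rfl
        · rw [abs_zero]; exact abs_nonneg _
      have hdm : d < m := by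
        have := hp.two_le
        have := NeZero.pos d
        rw [hd]; nlinarith
      obtain ⟨m', l, hm', x', h1, h2, h3, h4, h5⟩ := ih d (fun b => x1 (iota p b)) hr
        (by rw [hs]; exact hx1k) (by omega)
      have hcN : cN d ≤ cN m := by
        unfold cN
        by_cases h2d : 2 ∣ d
        · rw [if_pos h2d, if_pos (h2d.trans (Dvd.intro_left p hd.symm))]
        · rw [if_neg h2d]; split_ifs <;> norm_num
      refine ⟨m', p * l, hm', x', by rw [mul_assoc, h1, hd], ?_, h3, h4, ?_⟩
      · intro q hq hqm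
        refine (h2 q hq hqm).trans ?_
        have := Nat.mul_le_mul_left k hcN
        omega
      · intro R _ c hc
        rw [hid R c hc, ht R c]
        have h6 := h5 R (fun b => c (iota p b)) (hc.comp_iota hd.symm)
        rw [h6]
        refine sum_congr rfl fun b _ => ?_
        rw [iota_comp hd.symm]

end Pool.Agent.N997.P
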